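import Mathlib
import Pool.Agent.Helper88.MD.Div

/-!
# QES (MP_1e9ba9_an), part A: the fourth moment for a constant phase
-/

set_option autoImplicit false

namespace Pool.Agent.QES

open Finset MeasureTheory

/-- `e (h x)` -/
noncomputable def E (h : ℤ) (x : ℝ) : ℂ := Complex.exp (2 * Real.pi * Complex.I * h * x)

theorem E_cont (h : ℤ) : Continuous (E h) := by unfold E; fun_prop

theorem E_add (h k : ℤ) (x : ℝ) : E h x * E k x = E (h + k) x := by
  unfold E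
  rw [← Complex.exp_add]
  congr 1
  push_cast
  ring

theorem E_conj (h : ℤ) (x : ℝ) : (starRingEnd ℂ) (E h x) = E (-h) x := by
  unfold E
  rw [← Complex.exp_conj]
  congr 1
  simp only [map_mul, Complex.conj_I, Complex.conj_ofReal, map_ofNat, map_intCast]
  push_cast
  ring

theorem E_int (h : ℤ) : ‖∫ x in (-1 : ℝ)..1, E h x‖ ≤ if h = 0 then 2 else 0 := by
  by_cases hh : h = 0
  · rw [if_pos hh, hh]
    have h1 : ∀ x : ℝ, E 0 x = 1 := fun x => by unfold E; simp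
    simp only [h1]
    rw [intervalIntegral.integral_const]
    norm_num
  · rw [if_neg hh]
    have hc : (2 * Real.pi * Complex.I * h : ℂ) ≠ 0 := by
      have : (h : ℂ) ≠ 0 := by exact_mod_cast hh
      have hp : (Real.pi : ℂ) ≠ 0 := by exact_mod_cast Real.pi_ne_zero
      simp [this, hp, Complex.I_ne_zero]
    have h1 : (∫ x in (-1 : ℝ)..1, E h x) = 0 := by
      unfold E
      rw [integral_exp_mul_complex hc]
      have e1 : Complex.exp (2 * Real.pi * Complex.I * h * ((1 : ℝ) : ℂ)) = 1 := by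
        have := Complex.exp_int_mul_two_pi_mul_I h
        rw [← this]
        congr 1
        push_cast
        ring
      have e2 : Complex.exp (2 * Real.pi * Complex.I * h * ((-1 : ℝ) : ℂ)) = 1 := by
        have := Complex.exp_int_mul_two_pi_mul_I (-h)
        rw [← this]
        congr 1
        push_cast
        ring
      rw [e1, e2, sub_self, zero_div]
    rw [h1, norm_zero]

theorem four_le {ι : Type} (s : Finset ι) (b : ι → ℂ) (u : ι → ℤ) :
    ∫ x in (-1 : ℝ)..1, ‖∑ i ∈ s, b i * E (u i) x‖ ^ 4 ≤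
      2 * ∑ p ∈ s ×ˢ s, ∑ q ∈ s ×ˢ s,
        if u p.1 - u p.2 = u q.1 - u q.2 then
          (‖b p.1‖ * ‖b p.2‖) * (‖b q.1‖ * ‖b q.2‖) else 0 := by
  classical
  set B : ι × ι → ℂ := fun p => b p.1 * (starRingEnd ℂ) (b p.2) with hB
  set g : ι × ι → ℤ := fun p => u p.1 - u p.2 with hg
  have h1 : ∀ x : ℝ, ((‖∑ i ∈ s, b i * E (u i) x‖ ^ 2 : ℝ) : ℂ) =
      ∑ p ∈ s ×ˢ s, B p * E (g p) x := by
    intro x
    have h2 : ((‖∑ i ∈ s, b i * E (u i) x‖ ^ 2 : ℝ) : ℂ) =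
        (∑ i ∈ s, b i * E (u i) x) * (starRingEnd ℂ) (∑ i ∈ s, b i * E (u i) x) := by
      rw [Complex.mul_conj, Complex.normSq_eq_norm_sq]
    rw [h2, map_sum, Finset.sum_mul_sum, Finset.sum_product]
    refine Finset.sum_congr rfl fun i _ => Finset.sum_congr rfl fun j _ => ?_
    rw [map_mul, E_conj, hB, hg]
    simp only
    rw [sub_eq_add_neg, ← E_add]
    ring
  have h3 : ∀ x : ℝ, ((‖∑ i ∈ s, b i * E (u i) x‖ ^ 4 : ℝ) : ℂ) =
      ∑ p ∈ s ×ˢ s, ∑ q ∈ s ×ˢ s, (B p * (starRingEnd ℂ) (B q)) * E (g p - g q) x := by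
    intro x
    have h4 : ((‖∑ i ∈ s, b i * E (u i) x‖ ^ 4 : ℝ) : ℂ) =
        (∑ p ∈ s ×ˢ s, B p * E (g p) x) * (starRingEnd ℂ) (∑ p ∈ s ×ˢ s, B p * E (g p) x) := by
      rw [← h1 x, Complex.conj_ofReal]
      push_cast
      ring
    rw [h4, map_sum, Finset.sum_mul_sum]
    refine Finset.sum_congr rfl fun p _ => Finset.sum_congr rfl fun q _ => ?_
    rw [map_mul, E_conj, sub_eq_add_neg, ← E_add]
    ring
  have h5 : ((∫ x in (-1 : ℝ)..1, ‖∑ i ∈ s, b i * E (u i) x‖ ^ 4 : ℝ) : ℂ) =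
      ∑ p ∈ s ×ˢ s, ∑ q ∈ s ×ˢ s, (B p * (starRingEnd ℂ) (B q)) *
        ∫ x in (-1 : ℝ)..1, E (g p - g q) x := by
    rw [← intervalIntegral.integral_ofReal]
    simp only [h3]
    rw [intervalIntegral.integral_finsetSum]
    · refine Finset.sum_congr rfl fun p _ => ?_
      rw [intervalIntegral.integral_finsetSum]
      · refine Finset.sum_congr rfl fun q _ => ?_
        rw [intervalIntegral.integral_const_mul]
      · intro q _
        exact (continuous_const.mul (E_cont _)).intervalIntegrable _ _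
    · intro p _
      exact (continuous_finsetSum _ fun q _ => continuous_const.mul (E_cont _)).intervalIntegrable
        _ _
  have h6 : (∫ x in (-1 : ℝ)..1, ‖∑ i ∈ s, b i * E (u i) x‖ ^ 4) ≤
      ‖((∫ x in (-1 : ℝ)..1, ‖∑ i ∈ s, b i * E (u i) x‖ ^ 4 : ℝ) : ℂ)‖ := by
    rw [Complex.norm_real]
    exact le_abs_self _
  refine h6.trans ?_
  rw [h5, Finset.mul_sum]
  refine (norm_sum_le _ _).trans (Finset.sum_le_sum fun p _ => ?_)
  rw [Finset.mul_sum]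
  refine (norm_sum_le _ _).trans (Finset.sum_le_sum fun q _ => ?_)
  rw [norm_mul]
  have h7 := E_int (g p - g q)
  have h8 : ‖B p * (starRingEnd ℂ) (B q)‖ = (‖b p.1‖ * ‖b p.2‖) * (‖b q.1‖ * ‖b q.2‖) := by
    rw [hB]
    simp only [norm_mul, RCLike.norm_conj]
  rw [h8]
  have h9 : (0 : ℝ) ≤ (‖b p.1‖ * ‖b p.2‖) * (‖b q.1‖ * ‖b q.2‖) := by positivity
  by_cases h : u p.1 - u p.2 = u q.1 - u q.2
  · rw [if_pos h]
    have h10 : g p - g q = 0 := sub_eq_zero.2 h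
    rw [if_pos h10] at h7
    calc (‖b p.1‖ * ‖b p.2‖) * (‖b q.1‖ * ‖b q.2‖) * ‖∫ x in (-1 : ℝ)..1, E (g p - g q) x‖
        ≤ (‖b p.1‖ * ‖b p.2‖) * (‖b q.1‖ * ‖b q.2‖) * 2 := mul_le_mul_of_nonneg_left h7 h9
      _ = _ := by ring
  · rw [if_neg h]
    have h10 : g p - g q ≠ 0 := fun h' => h (sub_eq_zero.1 h')
    rw [if_neg h10] at h7
    have h11 : ‖∫ x in (-1 : ℝ)..1, E (g p - g q) x‖ = 0 := le_antisymm h7 (norm_nonneg _)
    rw [h11]
    simp

/-- the number of representations as a difference of two values of `n ^ 2 + c n` -/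
theorem card_rep {ι : Type} (s : Finset ι) (ν : ι → ℤ) (hν : Function.Injective ν) (c h : ℤ)
    (hh : h ≠ 0) : ((s ×ˢ s).filter fun q =>
      (ν q.1 ^ 2 + c * ν q.1) - (ν q.2 ^ 2 + c * ν q.2) = h).card ≤
      2 * h.natAbs.divisors.card := by
  classical
  have h1 : ((s ×ˢ s).filter fun q =>
      (ν q.1 ^ 2 + c * ν q.1) - (ν q.2 ^ 2 + c * ν q.2) = h).card ≤
      (h.natAbs.divisors ×ˢ (Finset.univ : Finset Bool)).card := by
    refine Finset.card_le_card_of_injOn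
      (fun q => ((ν q.1 - ν q.2).natAbs, decide (0 ≤ ν q.1 - ν q.2))) ?_ ?_
    · intro q hq
      rw [Finset.mem_coe, Finset.mem_filter] at hq
      rw [Finset.mem_coe, Finset.mem_product]
      refine ⟨?_, Finset.mem_univ _⟩
      rw [Nat.mem_divisors]
      refine ⟨?_, by simpa using hh⟩
      rw [Int.natAbs_dvd_natAbs]
      exact ⟨ν q.1 + ν q.2 + c, by rw [← hq.2]; ring⟩
    · intro q hq q' hq' heq
      rw [Finset.mem_coe, Finset.mem_filter] at hq hq'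
      simp only [Prod.mk.injEq] at heq
      have h2 : ν q.1 - ν q.2 = ν q'.1 - ν q'.2 := by
        obtain ⟨h3, h4⟩ := heq
        rw [decide_eq_decide] at h4
        omega
      have h3 : ν q.1 - ν q.2 ≠ 0 := by
        intro h0
        apply hh
        rw [← hq.2]
        have : ν q.1 = ν q.2 := sub_eq_zero.1 h0
        rw [this, sub_self]
      have h4 : (ν q.1 - ν q.2) * (ν q.1 + ν q.2 + c) =
          (ν q.1 - ν q.2) * (ν q'.1 + ν q'.2 + c) := by
        calc (ν q.1 - ν q.2) * (ν q.1 + ν q.2 + c) = h := by rw [← hq.2]; ring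
          _ = (ν q'.1 - ν q'.2) * (ν q'.1 + ν q'.2 + c) := by rw [← hq'.2]; ring
          _ = _ := by rw [h2]
      have h5 := mul_left_cancel₀ h3 h4
      have h6 : ν q.1 = ν q'.1 := by linarith
      have h7 : ν q.2 = ν q'.2 := by linarith
      exact Prod.ext (hν h6) (hν h7)
  refine h1.trans ?_
  rw [Finset.card_product, Finset.card_univ, Fintype.card_bool]
  exact (mul_comm _ _).le

theorem card_two {ι : Type} (s : Finset ι) (ν : ι → ℤ) (hν : Function.Injective ν) (c : ℤ) (i : ι) :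
    ((s.filter fun j => (ν i ^ 2 + c * ν i) - (ν j ^ 2 + c * ν j) = 0).card : ℝ) ≤ 2 := by
  classical
  have h1 : (s.filter fun j => (ν i ^ 2 + c * ν i) - (ν j ^ 2 + c * ν j) = 0).card ≤
      ({ν i, -ν i - c} : Finset ℤ).card := by
    refine Finset.card_le_card_of_injOn ν ?_ hν.injOn
    intro j hj
    rw [Finset.mem_coe, Finset.mem_filter] at hj
    have h2 : (ν j - ν i) * (ν j + ν i + c) = 0 := by linarith [hj.2]
    rw [Finset.mem_coe, Finset.mem_insert, Finset.mem_singleton]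
    rcases mul_eq_zero.1 h2 with h3 | h3
    · left; linarith
    · right; linarith
  have h2 : ({ν i, -ν i - c} : Finset ℤ).card ≤ 2 := Finset.card_le_two
  exact_mod_cast h1.trans h2

/-- the diagonal part -/
theorem diag_le {ι : Type} (s : Finset ι) (b : ι → ℂ) (u : ι → ℤ)
    (hc : ∀ i : ι, ((s.filter fun j => u i - u j = 0).card : ℝ) ≤ 2) :
    ∑ p ∈ (s ×ˢ s).filter (fun p => u p.1 - u p.2 = 0), ‖b p.1‖ * ‖b p.2‖ ≤
      2 * ∑ i ∈ s, ‖b i‖ ^ 2 := by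
  classical
  have hsum : ∀ i ∈ s, ∑ j ∈ s.filter (fun j => u i - u j = 0), ‖b i‖ ^ 2 ≤
      2 * ‖b i‖ ^ 2 := by
    intro i _
    rw [Finset.sum_const, nsmul_eq_mul]
    exact mul_le_mul_of_nonneg_right (hc i) (by positivity)
  have e1 : ∑ p ∈ (s ×ˢ s).filter (fun p => u p.1 - u p.2 = 0), ‖b p.1‖ ^ 2 ≤
      2 * ∑ i ∈ s, ‖b i‖ ^ 2 := by
    rw [Finset.sum_filter, Finset.sum_product, Finset.mul_sum]
    refine Finset.sum_le_sum fun i hi => ?_
    rw [← Finset.sum_filter]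
    exact hsum i hi
  have e2 : ∑ p ∈ (s ×ˢ s).filter (fun p => u p.1 - u p.2 = 0), ‖b p.2‖ ^ 2 ≤
      2 * ∑ i ∈ s, ‖b i‖ ^ 2 := by
    rw [Finset.sum_filter, Finset.sum_product_right, Finset.mul_sum]
    refine Finset.sum_le_sum fun i hi => ?_
    have h1 := hsum i hi
    rw [Finset.sum_filter] at h1
    refine le_trans (le_of_eq ?_) h1
    refine Finset.sum_congr rfl fun j _ => ?_
    have h2 : u j - u i = 0 ↔ u i - u j = 0 := by
      constructor <;> intro h <;> linarith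
    simp only [h2]
  calc ∑ p ∈ (s ×ˢ s).filter (fun p => u p.1 - u p.2 = 0), ‖b p.1‖ * ‖b p.2‖
      ≤ ∑ p ∈ (s ×ˢ s).filter (fun p => u p.1 - u p.2 = 0),
        (‖b p.1‖ ^ 2 / 2 + ‖b p.2‖ ^ 2 / 2) := by
        refine Finset.sum_le_sum fun p _ => ?_
        nlinarith [sq_nonneg (‖b p.1‖ - ‖b p.2‖)]
    _ ≤ 2 * ∑ i ∈ s, ‖b i‖ ^ 2 := by
        rw [Finset.sum_add_distrib, ← Finset.sum_div, ← Finset.sum_div]
        linarith

theorem four_bound {ι : Type} (s : Finset ι) (b : ι → ℂ) (u : ι → ℤ)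
    (hc : ∀ i : ι, ((s.filter fun j => u i - u j = 0).card : ℝ) ≤ 2)
    (D : ℝ) (hD0 : 0 ≤ D) (hD : ∀ p ∈ s ×ˢ s, u p.1 - u p.2 ≠ 0 →
      (((s ×ˢ s).filter fun q => u q.1 - u q.2 = u p.1 - u p.2).card : ℝ) ≤ 2 * D) :
    ∫ x in (-1 : ℝ)..1, ‖∑ i ∈ s, b i * E (u i) x‖ ^ 4 ≤
      (8 + 4 * D) * (∑ i ∈ s, ‖b i‖ ^ 2) ^ 2 := by
  classical
  refine (four_le s b u).trans ?_
  obtain ⟨T, hT⟩ : ∃ T : ℝ, T = ∑ i ∈ s, ‖b i‖ ^ 2 := ⟨_, rfl⟩
  obtain ⟨β, hβ⟩ : ∃ β : ι × ι → ℝ, β = fun p => ‖b p.1‖ * ‖b p.2‖ := ⟨_, rfl⟩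
  obtain ⟨g, hg⟩ : ∃ g : ι × ι → ℤ, g = fun p => u p.1 - u p.2 := ⟨_, rfl⟩
  have hβ0 : ∀ p, 0 ≤ β p := fun p => by rw [hβ]; positivity
  have hTT : ∑ p ∈ s ×ˢ s, β p ^ 2 = T ^ 2 := by
    rw [hT, sq, Finset.sum_mul_sum, Finset.sum_product, hβ]
    refine Finset.sum_congr rfl fun i _ => Finset.sum_congr rfl fun j _ => ?_
    simp only
    ring
  have hdiag : ∑ p ∈ (s ×ˢ s).filter (fun p => g p = 0), β p ≤ 2 * T := by
    rw [hT, hβ, hg]
    exact diag_le s b u hc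
  have hdiag0 : 0 ≤ ∑ p ∈ (s ×ˢ s).filter (fun p => g p = 0), β p :=
    Finset.sum_nonneg fun p _ => hβ0 p
  have hcard : ∀ p ∈ s ×ˢ s, g p ≠ 0 →
      (((s ×ˢ s).filter fun q => g q = g p).card : ℝ) ≤ 2 * D := by
    intro p hp hp0
    have h2 := hD p hp (by rw [hg] at hp0; exact hp0)
    rw [hg]
    exact h2
  -- the two parts
  have split : ∀ p ∈ s ×ˢ s, (∑ q ∈ s ×ˢ s, if g p = g q then β p * β q else 0) ≤
      (if g p = 0 then β p * ∑ q ∈ (s ×ˢ s).filter (fun q => g q = 0), β q else 0) +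
      (∑ q ∈ s ×ˢ s, if g p = g q ∧ g p ≠ 0 then (β p ^ 2 / 2 + β q ^ 2 / 2) else 0) := by
    intro p _
    by_cases h0 : g p = 0
    · rw [if_pos h0, Finset.mul_sum, Finset.sum_filter]
      have h1 : ∀ q, (if g p = g q then β p * β q else 0) =
          if g q = 0 then β p * β q else 0 := by
        intro q
        rw [h0]
        by_cases h2 : g q = 0
        · rw [if_pos h2, if_pos h2.symm]
        · rw [if_neg h2, if_neg (fun h => h2 h.symm)]
      simp only [h1]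
      have h3 : 0 ≤ ∑ q ∈ s ×ˢ s, (if g p = g q ∧ g p ≠ 0 then (β p ^ 2 / 2 + β q ^ 2 / 2) else 0) :=
        Finset.sum_nonneg fun q _ => by split_ifs <;> positivity
      linarith
    · rw [if_neg h0, zero_add]
      refine Finset.sum_le_sum fun q _ => ?_
      by_cases h1 : g p = g q
      · rw [if_pos h1, if_pos ⟨h1, h0⟩]
        nlinarith [sq_nonneg (β p - β q)]
      · rw [if_neg h1, if_neg (fun h => h1 h.1)]
  have m1 : ∑ p ∈ s ×ˢ s, ∑ q ∈ s ×ˢ s, (if g p = g q then β p * β q else 0) ≤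
      (∑ p ∈ (s ×ˢ s).filter (fun p => g p = 0), β p) ^ 2 +
      ∑ p ∈ s ×ˢ s, ∑ q ∈ s ×ˢ s,
        (if g p = g q ∧ g p ≠ 0 then (β p ^ 2 / 2 + β q ^ 2 / 2) else 0) := by
    refine (Finset.sum_le_sum split).trans ?_
    rw [Finset.sum_add_distrib, ← Finset.sum_filter, ← Finset.sum_mul, ← sq]
  have m2 : ∑ p ∈ s ×ˢ s, ∑ q ∈ s ×ˢ s, (if g p = g q ∧ g p ≠ 0 then β p ^ 2 / 2 else 0) ≤
      D * T ^ 2 := by
    rw [← hTT, Finset.mul_sum]
    refine Finset.sum_le_sum fun p hp => ?_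
    by_cases h0 : g p = 0
    · have h1 : ∀ q, (if g p = g q ∧ g p ≠ 0 then β p ^ 2 / 2 else 0) = 0 := fun q =>
        if_neg (fun h => h.2 h0)
      simp only [h1]
      rw [Finset.sum_const_zero]
      have := hβ0 p
      positivity
    · have h1 : ∀ q, (if g p = g q ∧ g p ≠ 0 then β p ^ 2 / 2 else 0) =
          if g q = g p then β p ^ 2 / 2 else 0 := by
        intro q
        by_cases h2 : g q = g p
        · rw [if_pos h2, if_pos ⟨h2.symm, h0⟩]
        · rw [if_neg h2, if_neg (fun h => h2 h.1.symm)]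
      simp only [h1]
      rw [← Finset.sum_filter, Finset.sum_const, nsmul_eq_mul]
      have h2 := hcard p hp h0
      have h3 : 0 ≤ β p ^ 2 / 2 := by positivity
      calc (((s ×ˢ s).filter fun q => g q = g p).card : ℝ) * (β p ^ 2 / 2)
          ≤ 2 * D * (β p ^ 2 / 2) := mul_le_mul_of_nonneg_right h2 h3
        _ = D * β p ^ 2 := by ring
  have m3 : ∑ p ∈ s ×ˢ s, ∑ q ∈ s ×ˢ s, (if g p = g q ∧ g p ≠ 0 then β q ^ 2 / 2 else 0) ≤
      D * T ^ 2 := by
    rw [Finset.sum_comm]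
    refine le_trans (le_of_eq ?_) m2
    refine Finset.sum_congr rfl fun q _ => Finset.sum_congr rfl fun p _ => ?_
    by_cases h2 : g p = g q
    · by_cases h0 : g p = 0
      · rw [if_neg (fun h => h.2 h0), if_neg (fun h => h.2 (h2 ▸ h0))]
      · rw [if_pos ⟨h2, h0⟩, if_pos ⟨h2.symm, fun h => h0 (h2.trans h)⟩]
    · rw [if_neg (fun h => h2 h.1), if_neg (fun h => h2 h.1.symm)]
  have m4 : ∑ p ∈ s ×ˢ s, ∑ q ∈ s ×ˢ s,
      (if g p = g q ∧ g p ≠ 0 then (β p ^ 2 / 2 + β q ^ 2 / 2) else 0) ≤ 2 * D * T ^ 2 := by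
    have h1 : ∀ p q, (if g p = g q ∧ g p ≠ 0 then (β p ^ 2 / 2 + β q ^ 2 / 2) else 0) =
        (if g p = g q ∧ g p ≠ 0 then β p ^ 2 / 2 else 0) +
        (if g p = g q ∧ g p ≠ 0 then β q ^ 2 / 2 else 0) := by
      intro p q
      split_ifs
      · rfl
      · rw [add_zero]
    simp only [h1]
    simp only [Finset.sum_add_distrib]
    linarith
  have m5 : (∑ p ∈ (s ×ˢ s).filter (fun p => g p = 0), β p) ^ 2 ≤ 4 * T ^ 2 := by
    calc (∑ p ∈ (s ×ˢ s).filter (fun p => g p = 0), β p) ^ 2 ≤ (2 * T) ^ 2 :=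
          pow_le_pow_left₀ hdiag0 hdiag 2
      _ = 4 * T ^ 2 := by ring
  have m6 : ∑ p ∈ s ×ˢ s, ∑ q ∈ s ×ˢ s,
        (if u p.1 - u p.2 = u q.1 - u q.2 then
          (‖b p.1‖ * ‖b p.2‖) * (‖b q.1‖ * ‖b q.2‖) else 0) =
      ∑ p ∈ s ×ˢ s, ∑ q ∈ s ×ˢ s, (if g p = g q then β p * β q else 0) := by
    rw [hg, hβ]
  rw [m6, ← hT]
  nlinarith

/-- the fourth moment for a phase `c x + y` -/
theorem fourth (ε : ℝ) (hε : 0 < ε) (A : ℕ) : ∃ C : ℝ, 0 < C ∧ ∀ (N : ℕ), 1 ≤ N →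
    ∀ (s : Finset ℕ) (b : ℕ → ℂ) (ν : ℕ → ℤ) (c : ℤ), Function.Injective ν →
    (∀ i ∈ s, |ν i| ≤ N) → |c| ≤ (N : ℤ) ^ A →
    ∫ x in (-1 : ℝ)..1, ‖∑ i ∈ s, b i * E (ν i ^ 2 + c * ν i) x‖ ^ 4 ≤
      C * (N : ℝ) ^ ε * (∑ i ∈ s, ‖b i‖ ^ 2) ^ 2 := by
  obtain ⟨C, hC⟩ := Pool.Agent.Helper88.MD.divisorBound (ε / (A + 2)) (by positivity)
  refine ⟨8 + 4 * (max C 1 * 4 ^ (ε / (A + 2))), by positivity,
    fun N hN s b ν c hν hs hcN => ?_⟩
  have hN1 : (1 : ℝ) ≤ N := by exact_mod_cast hN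
  have hN2 : (1 : ℝ) ≤ (N : ℝ) ^ ε := Real.one_le_rpow hN1 hε.le
  have h1 := four_bound s b (fun i => ν i ^ 2 + c * ν i) (fun i => card_two s ν hν c i)
    (max C 1 * 4 ^ (ε / (A + 2)) * (N : ℝ) ^ ε) (by positivity) (by
    intro p hp hp0
    rw [Finset.mem_product] at hp
    obtain ⟨h, hh⟩ : ∃ h : ℤ, h = (ν p.1 ^ 2 + c * ν p.1) - (ν p.2 ^ 2 + c * ν p.2) := ⟨_, rfl⟩
    rw [← hh] at hp0 ⊢
    have h2 : 1 ≤ h.natAbs := by
      have := Int.natAbs_pos.2 hp0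
      omega
    have h3 := hC _ h2
    have h4 : (h.natAbs : ℝ) ≤ 4 * (N : ℝ) ^ (A + 2) := by
      have a1 := sq_le_sq' (abs_le.1 (hs _ hp.1)).1 (abs_le.1 (hs _ hp.1)).2
      have a2 := sq_le_sq' (abs_le.1 (hs _ hp.2)).1 (abs_le.1 (hs _ hp.2)).2
      have a3 := sq_nonneg (ν p.1)
      have a4 := sq_nonneg (ν p.2)
      have hNZ : (1 : ℤ) ≤ N := by exact_mod_cast hN
      have b1 : |c * ν p.1| ≤ (N : ℤ) ^ A * N := by
        rw [abs_mul]
        exact mul_le_mul hcN (hs _ hp.1) (abs_nonneg _) (by positivity)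
      have b2 : |c * ν p.2| ≤ (N : ℤ) ^ A * N := by
        rw [abs_mul]
        exact mul_le_mul hcN (hs _ hp.2) (abs_nonneg _) (by positivity)
      have b3 : (N : ℤ) ^ A * N ≤ (N : ℤ) ^ (A + 2) := by
        rw [← pow_succ]
        exact pow_le_pow_right₀ hNZ (by omega)
      have b4 : (N : ℤ) ^ 2 ≤ (N : ℤ) ^ (A + 2) := pow_le_pow_right₀ hNZ (by omega)
      rw [abs_le] at b1 b2
      have h5 : |h| ≤ 4 * (N : ℤ) ^ (A + 2) := by
        rw [hh, abs_le]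
        constructor <;> linarith [b1.1, b1.2, b2.1, b2.2]
      have h6 : (h.natAbs : ℤ) ≤ 4 * (N : ℤ) ^ (A + 2) := by
        rw [Int.natCast_natAbs]
        exact h5
      have h7 : h.natAbs ≤ 4 * N ^ (A + 2) := by exact_mod_cast h6
      exact_mod_cast h7
    have h8 : (0 : ℝ) < (h.natAbs : ℝ) := by exact_mod_cast h2
    have hA : (0 : ℝ) < (A : ℝ) + 2 := by positivity
    have h9 : (h.natAbs.divisors.card : ℝ) ≤ max C 1 * 4 ^ (ε / (A + 2)) * (N : ℝ) ^ ε := by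
      calc (h.natAbs.divisors.card : ℝ)
          ≤ C * (h.natAbs : ℝ) ^ (ε / (A + 2)) := h3
        _ ≤ max C 1 * (h.natAbs : ℝ) ^ (ε / (A + 2)) :=
            mul_le_mul_of_nonneg_right (le_max_left _ _) (by positivity)
        _ ≤ max C 1 * (4 * (N : ℝ) ^ (A + 2)) ^ (ε / (A + 2)) :=
            mul_le_mul_of_nonneg_left (Real.rpow_le_rpow h8.le h4 (by positivity)) (by positivity)
        _ = max C 1 * 4 ^ (ε / (A + 2)) * (N : ℝ) ^ ε := by
            rw [Real.mul_rpow (by norm_num) (by positivity), ← Real.rpow_natCast,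
              ← Real.rpow_mul (by positivity), mul_assoc]
            congr 3
            push_cast
            field_simp
    have h10 := card_rep s ν hν c h hp0
    have h11 : (((s ×ˢ s).filter fun q =>
        (ν q.1 ^ 2 + c * ν q.1) - (ν q.2 ^ 2 + c * ν q.2) = h).card : ℝ) ≤
        2 * (h.natAbs.divisors.card : ℝ) := by exact_mod_cast h10
    linarith)
  refine h1.trans ?_
  apply mul_le_mul_of_nonneg_right _ (by positivity)
  have h9 : (0 : ℝ) ≤ max C 1 * 4 ^ (ε / (A + 2)) := by positivity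
  nlinarith

end Pool.Agent.QES
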