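import Mathlib

/-!
# QES (MP_1e9ba9_an): definitions
-/

set_option autoImplicit false

namespace Pool.Agent.QES

open Finset MeasureTheory

/-- `S_N(x)`, the sum over `-N ≤ n ≤ N` of `a_n e(n φ(x) + n ^ 2 x)` -/
noncomputable def S (φ : ℝ → ℝ) (N : ℕ) (a : ℤ → ℂ) (x : ℝ) : ℂ :=
  ∑ n ∈ Finset.Icc (-(N : ℤ)) N,
    a n * Complex.exp (2 * Real.pi * Complex.I * ((n * φ x + (n : ℝ) ^ 2 * x : ℝ) : ℂ))

/-- The sum of `|a_n| ^ 2` over `-N ≤ n ≤ N`. -/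
noncomputable def T (N : ℕ) (a : ℤ → ℂ) : ℝ := ∑ n ∈ Finset.Icc (-(N : ℤ)) N, ‖a n‖ ^ 2

/-- For every `ε > 0` there is `C` such that for every `N ≥ 1` and all coefficients the norm of `S_N`
in `L^4(-1, 1)` is at most `C N ^ (κ + ε)` times the norm of the coefficients in `ℓ^2`. -/
def FourthBound (φ : ℝ → ℝ) (κ : ℝ) : Prop :=
  ∀ ε : ℝ, 0 < ε → ∃ C : ℝ, ∀ N : ℕ, 1 ≤ N → ∀ a : ℤ → ℂ,
    (∫ x in (-1 : ℝ)..1, ‖S φ N a x‖ ^ 4) ^ (1 / 4 : ℝ) ≤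
      C * (N : ℝ) ^ (κ + ε) * T N a ^ (1 / 2 : ℝ)

/-- For every `ε > 0` there are `C` and `A` such that for every `N ≥ 1` the graph of `φ` modulo 1 over
`[-1, 1]` is covered by at most `C N ^ (d + ε)` strips `|φ(x) - (c x + y)| ≤ 1 / N`, `c` an integer
with `|c| ≤ N ^ A`, up to a set of `x` of measure at most `C N ^ (d + ε - 1)`. -/
def Covered (φ : ℝ → ℝ) (d : ℝ) : Prop :=
  ∀ ε : ℝ, 0 < ε → ∃ (C : ℝ) (A : ℕ), ∀ N : ℕ, 1 ≤ N → ∃ F : Finset (ℤ × ℝ),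
    (F.card : ℝ) ≤ C * (N : ℝ) ^ (d + ε) ∧ (∀ q ∈ F, |q.1| ≤ (N : ℤ) ^ A) ∧
    volume {x : ℝ | x ∈ Set.Icc (-1) 1 ∧
      ∀ q ∈ F, ∀ k : ℤ, 1 / (N : ℝ) < |φ x - (q.1 * x + q.2 + k)|} ≤
      ENNReal.ofReal (C * (N : ℝ) ^ (d + ε - 1))

/-- The upper box dimension of `Y` is at most `d`: for every `ε > 0` there is `C` such that for
every `N ≥ 1` the set `Y` is covered by at most `C N ^ (d + ε)` intervals of length `2 / N`. -/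
def BoxDimLE (Y : Set ℝ) (d : ℝ) : Prop :=
  ∀ ε : ℝ, 0 < ε → ∃ C : ℝ, ∀ N : ℕ, 1 ≤ N → ∃ F : Finset ℝ,
    (F.card : ℝ) ≤ C * (N : ℝ) ^ (d + ε) ∧ ∀ y ∈ Y, ∃ c ∈ F, |y - c| ≤ 1 / (N : ℝ)

end Pool.Agent.QES
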