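import Pool.Agent.QES.A
import Pool.Agent.QES.Defs

/-!
# QES (MP_1e9ba9_an), part B: strips
-/

set_option autoImplicit false

namespace Pool.Agent.QES

open Finset MeasureTheory

/-- the index -/
def nu (N : ℕ) (i : ℕ) : ℤ := (i : ℤ) - N

theorem nu_inj (N : ℕ) : Function.Injective (nu N) := by
  intro i j h
  unfold nu at h
  omega

theorem sum_nu {M : Type} [AddCommMonoid M] (N : ℕ) (f : ℤ → M) :
    ∑ n ∈ Finset.Icc (-(N : ℤ)) N, f n = ∑ i ∈ range (2 * N + 1), f (nu N i) := by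
  symm
  refine Finset.sum_bij (fun i _ => nu N i) ?_ ?_ ?_ ?_
  · intro i hi
    rw [Finset.mem_range] at hi
    rw [Finset.mem_Icc]
    unfold nu
    omega
  · intro i _ j _ h
    exact nu_inj N h
  · intro n hn
    rw [Finset.mem_Icc] at hn
    refine ⟨(n + N).toNat, ?_, ?_⟩
    · rw [Finset.mem_range]
      omega
    · unfold nu
      omega
  · intro i _
    rfl

/-- the coefficients -/
noncomputable def bb (N : ℕ) (a : ℤ → ℂ) (y : ℝ) (i : ℕ) : ℂ :=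
  a (nu N i) * Complex.exp (2 * Real.pi * Complex.I * ((nu N i * y : ℝ) : ℂ))

/-- the partial sums -/
noncomputable def P (N : ℕ) (a : ℤ → ℂ) (c : ℤ) (y : ℝ) (j : ℕ) (x : ℝ) : ℂ :=
  ∑ i ∈ range j, bb N a y i * E (nu N i ^ 2 + c * nu N i) x

theorem P_cont (N : ℕ) (a : ℤ → ℂ) (c : ℤ) (y : ℝ) (j : ℕ) : Continuous (P N a c y j) :=
  continuous_finsetSum _ fun _ _ => continuous_const.mul (E_cont _)

theorem norm_exp_2 (t : ℝ) : ‖Complex.exp (2 * Real.pi * Complex.I * (t : ℂ))‖ = 1 := by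
  have : (2 * Real.pi * Complex.I * (t : ℂ)) = ((2 * Real.pi * t : ℝ) : ℂ) * Complex.I := by
    push_cast; ring
  rw [this, Complex.norm_exp_ofReal_mul_I]

theorem norm_bb (N : ℕ) (a : ℤ → ℂ) (y : ℝ) (i : ℕ) : ‖bb N a y i‖ = ‖a (nu N i)‖ := by
  unfold bb
  rw [norm_mul, norm_exp_2, mul_one]

theorem sum_bb (N : ℕ) (a : ℤ → ℂ) (y : ℝ) (j : ℕ) (hj : j ≤ 2 * N + 1) :
    ∑ i ∈ range j, ‖bb N a y i‖ ^ 2 ≤ T N a := by
  unfold T
  rw [sum_nu]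
  refine (Finset.sum_le_sum_of_subset_of_nonneg (Finset.range_mono hj) fun i _ _ => by
    positivity).trans (le_of_eq ?_)
  exact Finset.sum_congr rfl fun i _ => by rw [norm_bb]

theorem point (φ : ℝ → ℝ) (N : ℕ) (hN : 1 ≤ N) (a : ℤ → ℂ) (c : ℤ) (y : ℝ) (k : ℤ) (x : ℝ)
    (h : |φ x - (c * x + y + k)| ≤ 1 / (N : ℝ)) :
    ‖S φ N a x‖ ≤ ‖P N a c y (2 * N + 1) x‖ +
      2 * Real.pi / N * ∑ i ∈ range (2 * N), ‖P N a c y (i + 1) x‖ := by
  obtain ⟨δ, hδ⟩ : ∃ δ : ℝ, δ = φ x - (c * x + y + k) := ⟨_, rfl⟩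
  rw [← hδ] at h
  have hφ : φ x = c * x + y + k + δ := by rw [hδ]; ring
  obtain ⟨w, hw⟩ : ∃ w : ℕ → ℂ, w = fun i =>
    Complex.exp (2 * Real.pi * Complex.I * ((nu N i * δ : ℝ) : ℂ)) := ⟨_, rfl⟩
  obtain ⟨g, hg⟩ : ∃ g : ℕ → ℂ, g = fun i => bb N a y i * E (nu N i ^ 2 + c * nu N i) x :=
    ⟨_, rfl⟩
  have h1 : S φ N a x = ∑ i ∈ range (2 * N + 1), w i • g i := by
    unfold S
    rw [sum_nu]
    refine Finset.sum_congr rfl fun i _ => ?_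
    rw [hw, hg, smul_eq_mul]
    simp only
    unfold bb E
    have e1 : Complex.exp (2 * Real.pi * Complex.I * ((nu N i * k : ℤ) : ℂ)) = 1 := by
      have := Complex.exp_int_mul_two_pi_mul_I (nu N i * k)
      rw [← this]
      congr 1
      ring
    have e2 : Complex.exp (2 * Real.pi * Complex.I *
        ((nu N i * φ x + (nu N i : ℝ) ^ 2 * x : ℝ) : ℂ)) =
        Complex.exp (2 * Real.pi * Complex.I * ((nu N i * k : ℤ) : ℂ)) *
        (Complex.exp (2 * Real.pi * Complex.I * ((nu N i * δ : ℝ) : ℂ)) *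
        (Complex.exp (2 * Real.pi * Complex.I * ((nu N i * y : ℝ) : ℂ)) *
        Complex.exp (2 * Real.pi * Complex.I * ((nu N i ^ 2 + c * nu N i : ℤ) : ℂ) * (x : ℂ)))) := by
      rw [← Complex.exp_add, ← Complex.exp_add, ← Complex.exp_add, hφ]
      congr 1
      push_cast
      ring
    rw [e2, e1]
    ring
  have hG : ∀ j, ∑ i ∈ range j, g i = P N a c y j x := by
    intro j
    rw [hg]
    rfl
  have hw1 : ∀ i, ‖w i‖ = 1 := by
    intro i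
    rw [hw]
    exact norm_exp_2 _
  have hw2 : ∀ i, ‖w (i + 1) - w i‖ ≤ 2 * Real.pi / N := by
    intro i
    have e1 : w (i + 1) = w i * Complex.exp (Complex.I * ((2 * Real.pi * δ : ℝ) : ℂ)) := by
      rw [hw]
      simp only
      rw [← Complex.exp_add]
      congr 1
      unfold nu
      push_cast
      ring
    have e2 : w (i + 1) - w i =
        w i * (Complex.exp (Complex.I * ((2 * Real.pi * δ : ℝ) : ℂ)) - 1) := by
      rw [e1]; ring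
    rw [e2, norm_mul, hw1, one_mul]
    refine (Real.norm_exp_I_mul_ofReal_sub_one_le).trans ?_
    rw [Real.norm_eq_abs, abs_mul, abs_of_pos (by positivity : (0 : ℝ) < 2 * Real.pi)]
    calc 2 * Real.pi * |δ| ≤ 2 * Real.pi * (1 / (N : ℝ)) :=
          mul_le_mul_of_nonneg_left h (by positivity)
      _ = 2 * Real.pi / N := by ring
  rw [h1, Finset.sum_range_by_parts]
  have e3 : 2 * N + 1 - 1 = 2 * N := by omega
  rw [e3]
  refine (norm_sub_le _ _).trans ?_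
  rw [norm_smul, hw1, one_mul, hG]
  refine add_le_add le_rfl ((norm_sum_le _ _).trans ?_)
  rw [Finset.mul_sum]
  refine Finset.sum_le_sum fun i _ => ?_
  rw [norm_smul, hG]
  exact mul_le_mul_of_nonneg_right (hw2 i) (norm_nonneg _)

theorem inner_le_pow4 {ι : Type} (s : Finset ι) (f : ι → ℝ) (hf : ∀ i ∈ s, 0 ≤ f i) :
    (∑ i ∈ s, f i) ^ 4 ≤ (s.card : ℝ) ^ 3 * ∑ i ∈ s, f i ^ 4 := by
  rcases Finset.eq_empty_or_nonempty s with h | h
  · rw [h]; simp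
  · have h0 : (0 : ℝ) < s.card := by exact_mod_cast h.card_pos
    have h1 := pow_sum_div_card_le_sum_pow (s := s) (f := f) hf 3
    rw [div_le_iff₀ (by positivity)] at h1
    have h2 : (∑ i ∈ s, f i) ^ 4 ≤ (∑ i ∈ s, f i ^ 4) * (s.card : ℝ) ^ 3 := h1
    rw [mul_comm]
    exact h2

/-- the majorant on a strip -/
noncomputable def U (N : ℕ) (a : ℤ → ℂ) (q : ℤ × ℝ) (x : ℝ) : ℝ :=
  8 * ‖P N a q.1 q.2 (2 * N + 1) x‖ ^ 4 +
    8 * (2 * Real.pi) ^ 4 * (8 / N) * ∑ i ∈ range (2 * N), ‖P N a q.1 q.2 (i + 1) x‖ ^ 4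

theorem U_nonneg (N : ℕ) (a : ℤ → ℂ) (q : ℤ × ℝ) (x : ℝ) : 0 ≤ U N a q x := by
  unfold U
  positivity

theorem U_cont (N : ℕ) (a : ℤ → ℂ) (q : ℤ × ℝ) : Continuous (U N a q) := by
  unfold U
  refine Continuous.add (continuous_const.mul ((P_cont _ _ _ _ _).norm.pow 4))
    (continuous_const.mul (continuous_finsetSum _ fun i _ => (P_cont _ _ _ _ _).norm.pow 4))

theorem point4 (φ : ℝ → ℝ) (N : ℕ) (hN : 1 ≤ N) (a : ℤ → ℂ) (q : ℤ × ℝ) (k : ℤ) (x : ℝ)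
    (h : |φ x - (q.1 * x + q.2 + k)| ≤ 1 / (N : ℝ)) : ‖S φ N a x‖ ^ 4 ≤ U N a q x := by
  have hN0 : (0 : ℝ) < N := by exact_mod_cast hN
  have h1 := point φ N hN a q.1 q.2 k x h
  obtain ⟨u, hu⟩ : ∃ u : ℝ, u = ‖P N a q.1 q.2 (2 * N + 1) x‖ := ⟨_, rfl⟩
  obtain ⟨σ, hσ⟩ : ∃ σ : ℝ, σ = ∑ i ∈ range (2 * N), ‖P N a q.1 q.2 (i + 1) x‖ := ⟨_, rfl⟩
  rw [← hu, ← hσ] at h1
  have hu0 : 0 ≤ u := by rw [hu]; positivity
  have hσ0 : 0 ≤ σ := by rw [hσ]; positivity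
  have h2 : σ ^ 4 ≤ (2 * N : ℝ) ^ 3 * ∑ i ∈ range (2 * N), ‖P N a q.1 q.2 (i + 1) x‖ ^ 4 := by
    have h3 := inner_le_pow4 (range (2 * N)) (fun i => ‖P N a q.1 q.2 (i + 1) x‖)
      (fun i _ => norm_nonneg _)
    rw [← hσ, Finset.card_range] at h3
    push_cast at h3
    exact h3
  have h4 : (u + 2 * Real.pi / N * σ) ^ 4 ≤ 8 * (u ^ 4 + (2 * Real.pi / N * σ) ^ 4) := by
    have hv0 : 0 ≤ 2 * Real.pi / N * σ := by positivity
    obtain ⟨v, hv⟩ : ∃ v : ℝ, v = 2 * Real.pi / N * σ := ⟨_, rfl⟩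
    rw [← hv]
    nlinarith [sq_nonneg (u - v), sq_nonneg (u ^ 2 - v ^ 2), sq_nonneg (u + v),
      mul_nonneg (sq_nonneg (u - v)) (sq_nonneg (u + v)), sq_nonneg ((u - v) ^ 2),
      mul_nonneg (sq_nonneg (u - v)) (sq_nonneg u), mul_nonneg (sq_nonneg (u - v)) (sq_nonneg v)]
  have h5 : (2 * Real.pi / N * σ) ^ 4 ≤
      (2 * Real.pi) ^ 4 * (8 / N) * ∑ i ∈ range (2 * N), ‖P N a q.1 q.2 (i + 1) x‖ ^ 4 := by
    rw [mul_pow, div_pow]
    calc (2 * Real.pi) ^ 4 / (N : ℝ) ^ 4 * σ ^ 4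
        ≤ (2 * Real.pi) ^ 4 / (N : ℝ) ^ 4 * ((2 * N : ℝ) ^ 3 *
          ∑ i ∈ range (2 * N), ‖P N a q.1 q.2 (i + 1) x‖ ^ 4) :=
          mul_le_mul_of_nonneg_left h2 (by positivity)
      _ = (2 * Real.pi) ^ 4 * (8 / N) *
          ∑ i ∈ range (2 * N), ‖P N a q.1 q.2 (i + 1) x‖ ^ 4 := by
          field_simp
          ring
  have h6 : ‖S φ N a x‖ ^ 4 ≤ (u + 2 * Real.pi / N * σ) ^ 4 :=
    pow_le_pow_left₀ (norm_nonneg _) h1 4
  unfold U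
  rw [← hu]
  linarith

end Pool.Agent.QES
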