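import Mathlib

set_option autoImplicit false

/-!
# QES: the set of the powers of 1/2 (box dimension 0)
-/

namespace Pool.Agent.QES

/-- `0` and the powers of `1/2` are within `1/N` of at most `C N ^ e` points -/
theorem pow2 : ∀ e : ℝ, 0 < e → ∃ C : ℝ, ∀ N : ℕ, 1 ≤ N → ∃ F : Finset ℝ,
    (F.card : ℝ) ≤ C * (N : ℝ) ^ e ∧
      ∀ y ∈ ({0} ∪ {y : ℝ | ∃ k : ℕ, y = (2 : ℝ) ^ (-(k : ℤ))} : Set ℝ), ∃ c ∈ F, |y - c| ≤ 1 / (N : ℝ) := by
  classical
  intro e he
  have hl2 : 0 < Real.log 2 := Real.log_pos (by norm_num)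
  refine ⟨1 / (e * Real.log 2) + 2, fun N hN => ?_⟩
  have hN0 : (0 : ℝ) < N := by exact_mod_cast hN
  set L := Nat.log 2 N with hL
  refine ⟨insert 0 ((Finset.range (L + 1)).image fun k : ℕ => (2 : ℝ) ^ (-(k : ℤ))), ?_, ?_⟩
  · have h1 : (insert (0 : ℝ) ((Finset.range (L + 1)).image fun k : ℕ => (2 : ℝ) ^ (-(k : ℤ)))).card ≤
        L + 2 := by
      refine (Finset.card_insert_le _ _).trans ?_
      have h2 := Finset.card_image_le (s := Finset.range (L + 1)) (f := fun k : ℕ => (2 : ℝ) ^ (-(k : ℤ)))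
      rw [Finset.card_range] at h2
      omega
    have h2 : ((insert (0 : ℝ) ((Finset.range (L + 1)).image fun k : ℕ => (2 : ℝ) ^ (-(k : ℤ)))).card : ℝ) ≤
        (L : ℝ) + 2 := by exact_mod_cast h1
    refine h2.trans ?_
    have h3 : (2 : ℝ) ^ L ≤ N := by
      have := Nat.pow_log_le_self 2 (x := N) (by omega)
      exact_mod_cast this
    have h4 : (2 : ℝ) ^ (e * L) ≤ (N : ℝ) ^ e := by
      have h5 : (2 : ℝ) ^ (e * L) = ((2 : ℝ) ^ L) ^ e := by
        rw [← Real.rpow_natCast, ← Real.rpow_mul (by norm_num), mul_comm]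
      rw [h5]
      exact Real.rpow_le_rpow (by positivity) h3 he.le
    have h6 : 1 + Real.log 2 * (e * L) ≤ (2 : ℝ) ^ (e * L) := by
      rw [Real.rpow_def_of_pos (by norm_num)]
      have := Real.add_one_le_exp (Real.log 2 * (e * L))
      linarith
    have h7 : 1 + Real.log 2 * (e * L) ≤ (N : ℝ) ^ e := h6.trans h4
    have h8 : (L : ℝ) = 1 / (e * Real.log 2) * (Real.log 2 * (e * L)) := by
      field_simp
    have h9 : 0 < 1 / (e * Real.log 2) := by positivity
    have hL0 : (0 : ℝ) ≤ L := Nat.cast_nonneg L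
    have h10 : 0 ≤ Real.log 2 * (e * L) := by positivity
    rw [h8]
    nlinarith
  · intro y hy
    rcases hy with hy | ⟨k, hk⟩
    · refine ⟨0, Finset.mem_insert_self _ _, ?_⟩
      rw [Set.mem_singleton_iff] at hy
      rw [hy, sub_self, abs_zero]
      positivity
    · by_cases hkL : k < L + 1
      · refine ⟨y, ?_, by rw [sub_self, abs_zero]; positivity⟩
        rw [hk]
        exact Finset.mem_insert_of_mem (Finset.mem_image.2 ⟨k, Finset.mem_range.2 hkL, rfl⟩)
      · refine ⟨0, Finset.mem_insert_self _ _, ?_⟩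
        have h1 : (N : ℝ) ≤ 2 ^ k := by
          have h2 : N < 2 ^ (L + 1) := Nat.lt_pow_succ_log_self (by norm_num) N
          have h3 : 2 ^ (L + 1) ≤ 2 ^ k := Nat.pow_le_pow_right (by norm_num) (by omega)
          exact_mod_cast (h2.trans_le h3).le
        rw [sub_zero, hk, abs_of_pos (by positivity), zpow_neg, zpow_natCast, ← one_div]
        exact one_div_le_one_div_of_le hN0 h1

end Pool.Agent.QES
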