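import Pool.Agent.QES.B
import Pool.Agent.LVS.All

/-!
# QES (MP_1e9ba9_an), part C: integration
-/

set_option autoImplicit false

namespace Pool.Agent.QES

open Finset MeasureTheory

theorem strip_int (ε : ℝ) (hε : 0 < ε) (A : ℕ) : ∃ C : ℝ, 0 < C ∧ ∀ N : ℕ, 1 ≤ N →
    ∀ (a : ℤ → ℂ) (q : ℤ × ℝ), |q.1| ≤ (N : ℤ) ^ A →
    ∫ x in (-1 : ℝ)..1, U N a q x ≤ C * (N : ℝ) ^ ε * T N a ^ 2 := by
  obtain ⟨C, hC, h⟩ := fourth ε hε A
  refine ⟨(8 + 8 * (2 * Real.pi) ^ 4 * 16) * C, by positivity, fun N hN a q hq => ?_⟩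
  have hN0 : (0 : ℝ) < N := by exact_mod_cast hN
  have h1 : ∀ j, j ≤ 2 * N + 1 →
      ∫ x in (-1 : ℝ)..1, ‖P N a q.1 q.2 j x‖ ^ 4 ≤ C * (N : ℝ) ^ ε * T N a ^ 2 := by
    intro j hj
    have h0 : ∀ i ∈ range j, |nu N i| ≤ (N : ℤ) := by
      intro i hi
      rw [Finset.mem_range] at hi
      unfold nu
      rw [abs_le]
      omega
    have h2 := h N hN (range j) (bb N a q.2) (nu N) q.1 (nu_inj N) h0 hq
    refine h2.trans ?_
    refine mul_le_mul_of_nonneg_left ?_ (by positivity)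
    exact pow_le_pow_left₀ (Finset.sum_nonneg fun i _ => by positivity) (sum_bb N a q.2 j hj) 2
  have hi : ∀ j, IntervalIntegrable (fun x => ‖P N a q.1 q.2 j x‖ ^ 4) volume (-1) 1 := fun j =>
    ((P_cont N a q.1 q.2 j).norm.pow 4).intervalIntegrable _ _
  have hs : IntervalIntegrable (fun x => ∑ i ∈ range (2 * N), ‖P N a q.1 q.2 (i + 1) x‖ ^ 4)
      volume (-1) 1 :=
    (continuous_finsetSum _ fun i _ => (P_cont N a q.1 q.2 (i + 1)).norm.pow 4).intervalIntegrable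
      _ _
  unfold U
  rw [intervalIntegral.integral_add ((hi _).const_mul _) (hs.const_mul _),
    intervalIntegral.integral_const_mul, intervalIntegral.integral_const_mul,
    intervalIntegral.integral_finsetSum (fun i _ => hi _)]
  have h3 : ∑ i ∈ range (2 * N), ∫ x in (-1 : ℝ)..1, ‖P N a q.1 q.2 (i + 1) x‖ ^ 4 ≤
      (2 * N) * (C * (N : ℝ) ^ ε * T N a ^ 2) := by
    refine (Finset.sum_le_sum (fun i hi => h1 (i + 1) (by
      rw [Finset.mem_range] at hi; omega))).trans ?_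
    rw [Finset.sum_const, Finset.card_range, nsmul_eq_mul]
    push_cast
    exact le_rfl
  refine (add_le_add (mul_le_mul_of_nonneg_left (h1 _ le_rfl) (by norm_num))
    (mul_le_mul_of_nonneg_left h3 (by positivity))).trans (le_of_eq ?_)
  field_simp
  ring

theorem triv (φ : ℝ → ℝ) (N : ℕ) (a : ℤ → ℂ) (x : ℝ) :
    ‖S φ N a x‖ ^ 2 ≤ (2 * N + 1) * T N a := by
  have h1 : ‖S φ N a x‖ ≤ ∑ n ∈ Finset.Icc (-(N : ℤ)) N, ‖a n‖ := by
    unfold S
    refine (norm_sum_le _ _).trans (Finset.sum_le_sum fun n _ => ?_)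
    rw [norm_mul, norm_exp_2, mul_one]
  have h2 : (∑ n ∈ Finset.Icc (-(N : ℤ)) N, ‖a n‖) ^ 2 ≤
      ((Finset.Icc (-(N : ℤ)) N).card : ℝ) * ∑ n ∈ Finset.Icc (-(N : ℤ)) N, ‖a n‖ ^ 2 :=
    sq_sum_le_card_mul_sum_sq
  have h3 : ((Finset.Icc (-(N : ℤ)) N).card : ℝ) = 2 * N + 1 := by
    rw [Int.card_Icc]
    have : ((N : ℤ) + 1 - -(N : ℤ)).toNat = 2 * N + 1 := by omega
    rw [this]
    push_cast
    ring
  rw [h3] at h2
  exact (pow_le_pow_left₀ (norm_nonneg _) h1 2).trans h2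

theorem T_nonneg (N : ℕ) (a : ℤ → ℂ) : 0 ≤ T N a :=
  Finset.sum_nonneg fun _ _ => by positivity

theorem SN_eq (φ : ℝ → ℝ) (N : ℕ) (a : ℤ → ℂ) (x : ℝ) : LVS.SN N a φ x = S φ N a x := by
  unfold LVS.SN LVS.ee S
  refine Finset.sum_congr rfl fun n _ => ?_
  congr 2
  push_cast
  ring

theorem nrm_sq (N : ℕ) (a : ℤ → ℂ) : LVS.nrm N a ^ 2 = T N a := Real.sq_sqrt (T_nonneg N a)

theorem S_meas (φ : ℝ → ℝ) (hφ : Measurable φ) (N : ℕ) (a : ℤ → ℂ) : Measurable (S φ N a) := by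
  unfold S
  refine Finset.measurable_sum _ fun n _ => measurable_const.mul
    (Complex.measurable_exp.comp (measurable_const.mul (Complex.measurable_ofReal.comp ?_)))
  exact (hφ.const_mul _).add (measurable_id.const_mul _)

theorem large (ε : ℝ) (hε : 0 < ε) : ∃ C : ℝ, 0 < C ∧ ∀ φ : ℝ → ℝ, Measurable φ →
    ∀ N : ℕ, 1 ≤ N → ∀ a : ℤ → ℂ, ∃ l : ℝ, 0 ≤ l ∧
      l ^ 4 = C ^ 4 * (N : ℝ) ^ (1 + 4 * ε) * T N a ^ 2 ∧
      ∫ x in {x : ℝ | x ∈ Set.Icc (-1 : ℝ) 1 ∧ l ≤ ‖S φ N a x‖}, ‖S φ N a x‖ ^ 4 ≤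
        C * (N : ℝ) ^ ε * T N a ^ 2 := by
  obtain ⟨C, hC, h⟩ := LVS.all_FIN ε hε
  refine ⟨C, hC, fun φ hφ N hN a => ⟨C * (N : ℝ) ^ (1 / 4 + ε) * LVS.nrm N a, ?_, ?_, ?_⟩⟩
  · have : 0 ≤ LVS.nrm N a := Real.sqrt_nonneg _
    positivity
  · have hN0 : (0 : ℝ) < N := by exact_mod_cast hN
    have e1 : ((N : ℝ) ^ (1 / 4 + ε)) ^ 4 = (N : ℝ) ^ (1 + 4 * ε) := by
      rw [← Real.rpow_natCast, ← Real.rpow_mul hN0.le]
      congr 1
      push_cast
      ring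
    have e2 : LVS.nrm N a ^ 4 = T N a ^ 2 := by
      rw [← nrm_sq]; ring
    rw [mul_pow, mul_pow, e1, e2]
  · have h1 := h φ hφ N hN a
    have e2 : LVS.nrm N a ^ 4 = T N a ^ 2 := by
      rw [← nrm_sq]; ring
    rw [e2] at h1
    simp only [SN_eq] at h1
    exact h1

theorem main_int (φ : ℝ → ℝ) (hφ : Measurable φ) (d : ℝ) (hd : 0 ≤ d) (h : Covered φ d) (ε : ℝ)
    (hε : 0 < ε) : ∃ C : ℝ, 0 < C ∧ ∀ N : ℕ, 1 ≤ N → ∀ a : ℤ → ℂ,
      ∫ x in (-1 : ℝ)..1, ‖S φ N a x‖ ^ 4 ≤ C * (N : ℝ) ^ (d + 5 * ε) * T N a ^ 2 := by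
  obtain ⟨C₁, A, h1⟩ := h ε hε
  obtain ⟨C₂, hC₂, h2⟩ := strip_int ε hε A
  obtain ⟨C₃, hC₃, h3⟩ := large ε hε
  have hC₁ : 0 ≤ C₁ := by
    obtain ⟨F, hF, -⟩ := h1 1 le_rfl
    rw [Nat.cast_one, Real.one_rpow, mul_one] at hF
    exact (Nat.cast_nonneg _).trans hF
  refine ⟨C₁ * C₂ + C₁ * C₃ ^ 4 + C₃, by positivity, fun N hN a => ?_⟩
  have hN1 : (1 : ℝ) ≤ N := by exact_mod_cast hN
  have hN0 : (0 : ℝ) < N := by linarith
  have hT := T_nonneg N a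
  obtain ⟨F, hF1, hF2, hF3⟩ := h1 N hN
  obtain ⟨l, hl0, hl4, hl⟩ := h3 φ hφ N hN a
  obtain ⟨L, hL⟩ : ∃ L : Set ℝ, L = {x : ℝ | x ∈ Set.Icc (-1 : ℝ) 1 ∧ l ≤ ‖S φ N a x‖} := ⟨_, rfl⟩
  rw [← hL] at hl
  obtain ⟨E₀, hE₀⟩ : ∃ E₀ : Set ℝ, E₀ = {x : ℝ | ∀ q ∈ F, ∀ k : ℤ,
      1 / (N : ℝ) < |φ x - (q.1 * x + q.2 + k)|} := ⟨_, rfl⟩
  have hE : MeasurableSet E₀ := by
    have e1 : E₀ = ⋂ q ∈ F, ⋂ k : ℤ, {x : ℝ | 1 / (N : ℝ) < |φ x - (q.1 * x + q.2 + k)|} := by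
      ext x
      rw [hE₀]
      simp only [Set.mem_ofPred_eq, Set.mem_iInter]
    rw [e1]
    refine Finset.measurableSet_biInter F fun q _ => MeasurableSet.iInter fun k => ?_
    have e2 : Measurable fun x : ℝ => |φ x - (q.1 * x + q.2 + k)| := by
      have e3 : Measurable fun x : ℝ => φ x - ((q.1 : ℝ) * x + q.2 + k) :=
        hφ.sub (((measurable_id.const_mul _).add_const _).add_const _)
      exact continuous_abs.measurable.comp e3
    exact measurableSet_lt measurable_const e2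
  have hSm : Measurable (S φ N a) := S_meas φ hφ N a
  have hLm : MeasurableSet L := by
    rw [hL]
    exact measurableSet_Icc.inter (measurableSet_le measurable_const hSm.norm)
  have hLI : L ⊆ Set.Icc (-1 : ℝ) 1 := by
    rw [hL]
    exact fun x hx => hx.1
  have hSi : ∀ K : Set ℝ, volume K < ⊤ →
      Integrable (fun x => ‖S φ N a x‖ ^ 4) (volume.restrict K) := by
    intro K hK
    have : IsFiniteMeasure (volume.restrict K) := ⟨by rwa [Measure.restrict_apply_univ]⟩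
    refine (integrable_const (((2 * N + 1) * T N a) ^ 2)).mono'
      (hSm.norm.pow_const 4).aestronglyMeasurable (Filter.Eventually.of_forall fun x => ?_)
    rw [Real.norm_of_nonneg (by positivity)]
    have e1 := pow_le_pow_left₀ (by positivity) (triv φ N a x) 2
    have e2 : ‖S φ N a x‖ ^ 4 = (‖S φ N a x‖ ^ 2) ^ 2 := by ring
    rw [e2]
    exact e1
  have hUi : ∀ q, Integrable (U N a q) (volume.restrict (Set.Ioc (-1 : ℝ) 1)) := fun q =>
    ((U_cont N a q).intervalIntegrable (-1) 1).1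
  have hind : Integrable (E₀.indicator fun _ => l ^ 4)
      (volume.restrict (Set.Ioc (-1 : ℝ) 1)) := (integrable_const _).indicator hE
  have hlar : Integrable (L.indicator fun x => ‖S φ N a x‖ ^ 4)
      (volume.restrict (Set.Ioc (-1 : ℝ) 1)) :=
    (hSi _ (by rw [Real.volume_Ioc]; exact ENNReal.ofReal_lt_top)).indicator hLm
  have hsum : Integrable (fun x => ∑ q ∈ F, U N a q x) (volume.restrict (Set.Ioc (-1 : ℝ) 1)) :=
    integrable_finsetSum _ fun q _ => hUi q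
  have hsi : Integrable (fun x => ∑ q ∈ F, U N a q x + E₀.indicator (fun _ => l ^ 4) x)
      (volume.restrict (Set.Ioc (-1 : ℝ) 1)) := hsum.add hind
  have hpt : ∀ x ∈ Set.Ioc (-1 : ℝ) 1, ‖S φ N a x‖ ^ 4 ≤
      (∑ q ∈ F, U N a q x + E₀.indicator (fun _ => l ^ 4) x) +
        L.indicator (fun x => ‖S φ N a x‖ ^ 4) x := by
    intro x hxI
    have hs0 : 0 ≤ ∑ q ∈ F, U N a q x := Finset.sum_nonneg fun q _ => U_nonneg N a q x
    have hi1 : 0 ≤ E₀.indicator (fun _ => l ^ 4) x :=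
      Set.indicator_nonneg (fun _ _ => by positivity) x
    have hi2 : 0 ≤ L.indicator (fun x => ‖S φ N a x‖ ^ 4) x :=
      Set.indicator_nonneg (fun _ _ => by positivity) x
    by_cases hx : x ∈ E₀
    · rcases le_or_gt l ‖S φ N a x‖ with h5 | h5
      · have hxL : x ∈ L := by
          rw [hL]
          exact ⟨⟨hxI.1.le, hxI.2⟩, h5⟩
        rw [Set.indicator_of_mem hxL]
        linarith
      · rw [Set.indicator_of_mem hx]
        have e1 : ‖S φ N a x‖ ^ 4 ≤ l ^ 4 := pow_le_pow_left₀ (norm_nonneg _) h5.le 4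
        linarith
    · rw [hE₀] at hx
      simp only [Set.mem_ofPred_eq, not_forall, not_lt] at hx
      obtain ⟨q, hq, k, hk⟩ := hx
      have e1 := (point4 φ N hN a q k x hk).trans
        (Finset.single_le_sum (f := fun q => U N a q x) (fun q _ => U_nonneg N a q x) hq)
      linarith
  have h4 : ∫ x in Set.Ioc (-1 : ℝ) 1, ‖S φ N a x‖ ^ 4 ≤
      ∫ x in Set.Ioc (-1 : ℝ) 1, ((∑ q ∈ F, U N a q x + E₀.indicator (fun _ => l ^ 4) x) +
        L.indicator (fun x => ‖S φ N a x‖ ^ 4) x) :=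
    integral_mono_of_nonneg (Filter.Eventually.of_forall fun x => by positivity)
      (hsi.add hlar) ((ae_restrict_mem measurableSet_Ioc).mono hpt)
  have h4a : ∫ x in Set.Ioc (-1 : ℝ) 1, L.indicator (fun x => ‖S φ N a x‖ ^ 4) x ≤
      C₃ * (N : ℝ) ^ ε * T N a ^ 2 := by
    rw [integral_indicator hLm, Measure.restrict_restrict hLm]
    refine le_trans ?_ hl
    refine setIntegral_mono_set (hSi L ?_) (Filter.Eventually.of_forall fun x => by positivity)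
      (Filter.Eventually.of_forall fun x hx => hx.1)
    exact (measure_mono hLI).trans_lt (by rw [Real.volume_Icc]; exact ENNReal.ofReal_lt_top)
  rw [integral_add hsi hlar, integral_add hsum hind,
    integral_finsetSum _ (fun q _ => hUi q), integral_indicator_const _ hE, smul_eq_mul] at h4
  have h5 : (volume.restrict (Set.Ioc (-1 : ℝ) 1)).real E₀ ≤ C₁ * (N : ℝ) ^ (d + ε - 1) := by
    rw [measureReal_def, Measure.restrict_apply hE]
    refine ENNReal.toReal_le_of_le_ofReal (by positivity) ((measure_mono ?_).trans hF3)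
    intro x hx
    refine ⟨⟨hx.2.1.le, hx.2.2⟩, ?_⟩
    have := hx.1
    rw [hE₀] at this
    exact this
  have h6 : ∑ q ∈ F, ∫ x in Set.Ioc (-1 : ℝ) 1, U N a q x ≤
      C₁ * (N : ℝ) ^ (d + ε) * (C₂ * (N : ℝ) ^ ε * T N a ^ 2) := by
    have e1 : ∑ q ∈ F, ∫ x in Set.Ioc (-1 : ℝ) 1, U N a q x ≤
        ∑ q ∈ F, (C₂ * (N : ℝ) ^ ε * T N a ^ 2) := by
      refine Finset.sum_le_sum fun q hq => ?_
      rw [← intervalIntegral.integral_of_le (by norm_num : (-1 : ℝ) ≤ 1)]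
      exact h2 N hN a q (hF2 q hq)
    refine e1.trans ?_
    rw [Finset.sum_const, nsmul_eq_mul]
    exact mul_le_mul_of_nonneg_right hF1 (by positivity)
  have hT2 : 0 ≤ T N a ^ 2 := by positivity
  have h7 : (N : ℝ) ^ (d + ε) * (N : ℝ) ^ ε ≤ (N : ℝ) ^ (d + 5 * ε) := by
    rw [← Real.rpow_add hN0]
    exact Real.rpow_le_rpow_of_exponent_le hN1 (by linarith)
  have h8 : (N : ℝ) ^ (d + ε - 1) * (N : ℝ) ^ (1 + 4 * ε) = (N : ℝ) ^ (d + 5 * ε) := by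
    rw [← Real.rpow_add hN0]
    congr 1
    ring
  have h8a : (N : ℝ) ^ ε ≤ (N : ℝ) ^ (d + 5 * ε) :=
    Real.rpow_le_rpow_of_exponent_le hN1 (by linarith)
  have h9 : (volume.restrict (Set.Ioc (-1 : ℝ) 1)).real E₀ * l ^ 4 ≤
      C₁ * C₃ ^ 4 * (N : ℝ) ^ (d + 5 * ε) * T N a ^ 2 := by
    rw [hl4]
    calc (volume.restrict (Set.Ioc (-1 : ℝ) 1)).real E₀ *
          (C₃ ^ 4 * (N : ℝ) ^ (1 + 4 * ε) * T N a ^ 2)
        ≤ (C₁ * (N : ℝ) ^ (d + ε - 1)) * (C₃ ^ 4 * (N : ℝ) ^ (1 + 4 * ε) * T N a ^ 2) :=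
          mul_le_mul_of_nonneg_right h5 (by positivity)
      _ = C₁ * C₃ ^ 4 * ((N : ℝ) ^ (d + ε - 1) * (N : ℝ) ^ (1 + 4 * ε)) * T N a ^ 2 := by ring
      _ = _ := by rw [h8]
  have h10 : C₁ * (N : ℝ) ^ (d + ε) * (C₂ * (N : ℝ) ^ ε * T N a ^ 2) ≤
      C₁ * C₂ * (N : ℝ) ^ (d + 5 * ε) * T N a ^ 2 := by
    calc C₁ * (N : ℝ) ^ (d + ε) * (C₂ * (N : ℝ) ^ ε * T N a ^ 2)
        = C₁ * C₂ * T N a ^ 2 * ((N : ℝ) ^ (d + ε) * (N : ℝ) ^ ε) := by ring
      _ ≤ C₁ * C₂ * T N a ^ 2 * (N : ℝ) ^ (d + 5 * ε) :=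
          mul_le_mul_of_nonneg_left h7 (by positivity)
      _ = _ := by ring
  have h11 : C₃ * (N : ℝ) ^ ε * T N a ^ 2 ≤ C₃ * (N : ℝ) ^ (d + 5 * ε) * T N a ^ 2 :=
    mul_le_mul_of_nonneg_right (mul_le_mul_of_nonneg_left h8a hC₃.le) hT2
  rw [intervalIntegral.integral_of_le (by norm_num : (-1 : ℝ) ≤ 1)]
  refine h4.trans ((add_le_add (add_le_add (h6.trans h10) h9) (h4a.trans h11)).trans (le_of_eq ?_))
  ring

theorem covered_bound (φ : ℝ → ℝ) (hφ : Measurable φ) (d : ℝ) (hd : 0 ≤ d) (h : Covered φ d)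
    (ε : ℝ) (hε : 0 < ε) : ∃ C : ℝ, ∀ N : ℕ, 1 ≤ N → ∀ a : ℤ → ℂ,
      (∫ x in (-1 : ℝ)..1, ‖S φ N a x‖ ^ 4) ^ (1 / 4 : ℝ) ≤
        C * (N : ℝ) ^ (d / 4 + ε) * T N a ^ (1 / 2 : ℝ) := by
  obtain ⟨C, hC, h1⟩ := main_int φ hφ d hd h (4 / 5 * ε) (by linarith)
  refine ⟨C ^ (1 / 4 : ℝ), fun N hN a => ?_⟩
  have hN0 : (0 : ℝ) < N := by exact_mod_cast hN
  have hT := T_nonneg N a
  have h2 : 0 ≤ ∫ x in (-1 : ℝ)..1, ‖S φ N a x‖ ^ 4 :=
    intervalIntegral.integral_nonneg (by norm_num) fun x _ => by positivity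
  refine (Real.rpow_le_rpow h2 (h1 N hN a) (by norm_num)).trans (le_of_eq ?_)
  rw [Real.mul_rpow (by positivity) (by positivity), Real.mul_rpow (by positivity) (by positivity),
    ← Real.rpow_mul hN0.le, ← Real.rpow_natCast (T N a) 2, ← Real.rpow_mul hT]
  congr 2
  · congr 1
    ring
  · norm_num

theorem covered_of_box (φ : ℝ → ℝ) (Y : Set ℝ) (d : ℝ) (c : ℤ) (hY : BoxDimLE Y d)
    (h : ∀ᵐ x ∂(volume.restrict (Set.Icc (-1 : ℝ) 1)), ∃ k : ℤ, φ x - c * x - k ∈ Y) :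
    Covered φ d := by
  intro ε hε
  obtain ⟨C, hC⟩ := hY ε hε
  have hC1 : (1 : ℝ) ≤ max C 1 := le_max_right _ _
  refine ⟨max C 1, c.natAbs, fun N hN => ?_⟩
  rcases Nat.lt_or_ge 1 N with h2 | h2
  · obtain ⟨F, hF1, hF2⟩ := hC N hN
    classical
    refine ⟨F.image fun y => (c, y), ?_, ?_, ?_⟩
    · refine (Nat.cast_le.2 Finset.card_image_le).trans (hF1.trans ?_)
      exact mul_le_mul_of_nonneg_right (le_max_left _ _) (by positivity)
    · intro q hq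
      rw [Finset.mem_image] at hq
      obtain ⟨y, -, rfl⟩ := hq
      have e1 : c.natAbs < N ^ c.natAbs := Nat.lt_pow_self h2
      have e2 : |c| = (c.natAbs : ℤ) := (Int.natCast_natAbs c).symm
      have e3 : (c.natAbs : ℤ) ≤ (N : ℤ) ^ c.natAbs := by exact_mod_cast e1.le
      show |c| ≤ (N : ℤ) ^ c.natAbs
      rw [e2]
      exact e3
    · rw [ae_restrict_iff' measurableSet_Icc, ae_iff] at h
      have e1 : volume {x : ℝ | x ∈ Set.Icc (-1) 1 ∧ ∀ q ∈ F.image (fun y => (c, y)),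
          ∀ k : ℤ, 1 / (N : ℝ) < |φ x - (q.1 * x + q.2 + k)|} = 0 := by
        refine measure_mono_null ?_ h
        rintro x ⟨hx1, hx2⟩ hp
        obtain ⟨k, hk⟩ := hp hx1
        obtain ⟨y, hy, hy2⟩ := hF2 _ hk
        have e2 := hx2 (c, y) (Finset.mem_image_of_mem _ hy) k
        have e3 : φ x - (((c, y) : ℤ × ℝ).1 * x + ((c, y) : ℤ × ℝ).2 + k) =
            φ x - c * x - k - y := by
          simp only
          ring
        rw [e3] at e2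
        linarith
      rw [e1]
      exact zero_le
  · have hN1 : N = 1 := by omega
    subst hN1
    refine ⟨{((0 : ℤ), (0 : ℝ))}, ?_, ?_, ?_⟩
    · rw [Finset.card_singleton, Nat.cast_one, Real.one_rpow, mul_one]
      exact hC1
    · intro q hq
      rw [Finset.mem_singleton] at hq
      rw [hq]
      simp
    · have e1 : {x : ℝ | x ∈ Set.Icc (-1) 1 ∧ ∀ q ∈ ({((0 : ℤ), (0 : ℝ))} : Finset (ℤ × ℝ)),
          ∀ k : ℤ, 1 / ((1 : ℕ) : ℝ) < |φ x - (q.1 * x + q.2 + k)|} = ∅ := by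
        ext x
        rw [Set.mem_empty_iff_false, iff_false]
        rintro ⟨-, hx2⟩
        have e2 := hx2 ((0 : ℤ), (0 : ℝ)) (Finset.mem_singleton_self _) (round (φ x))
        have e3 : φ x - ((((0 : ℤ), (0 : ℝ)) : ℤ × ℝ).1 * x + (((0 : ℤ), (0 : ℝ)) : ℤ × ℝ).2 +
            (round (φ x) : ℤ)) = φ x - round (φ x) := by
          simp
        rw [e3, Nat.cast_one] at e2
        have e4 := abs_sub_round (φ x)
        linarith
      rw [e1, measure_empty]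
      exact zero_le

theorem covered_of_values (φ : ℝ → ℝ) (y : ℕ → ℝ) (s C₀ : ℝ) (hs : 0 < s)
    (h : ∀ K : ℕ, 1 ≤ K → volume {x : ℝ | x ∈ Set.Icc (-1) 1 ∧ ∀ k < K, φ x ≠ y k} ≤
      ENNReal.ofReal (C₀ * (K : ℝ) ^ (-s))) : Covered φ (1 / (s + 1)) := by
  intro ε hε
  obtain ⟨d, hd⟩ : ∃ d : ℝ, d = 1 / (s + 1) := ⟨_, rfl⟩
  have hd0 : 0 < d := by rw [hd]; positivity
  have hds : d * s = 1 - d := by
    rw [hd]; field_simp; ring
  rw [← hd]
  have hC2 : (2 : ℝ) ≤ max C₀ 2 := le_max_right _ _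
  refine ⟨max C₀ 2, 0, fun N hN => ?_⟩
  have hN1 : (1 : ℝ) ≤ N := by exact_mod_cast hN
  have hN0 : (0 : ℝ) < N := by linarith
  have hNd : (1 : ℝ) ≤ (N : ℝ) ^ d := Real.one_le_rpow hN1 hd0.le
  obtain ⟨K, hK⟩ : ∃ K : ℕ, K = ⌈(N : ℝ) ^ d⌉₊ := ⟨_, rfl⟩
  have hK1 : (N : ℝ) ^ d ≤ K := by rw [hK]; exact Nat.le_ceil _
  have hK2 : (K : ℝ) ≤ (N : ℝ) ^ d + 1 := by
    rw [hK]; exact (Nat.ceil_lt_add_one (by linarith)).le
  have hK3 : 1 ≤ K := by
    have : (1 : ℝ) ≤ K := hNd.trans hK1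
    exact_mod_cast this
  classical
  refine ⟨(range K).image fun k => ((0 : ℤ), y k), ?_, ?_, ?_⟩
  · have e1 : (((range K).image fun k => ((0 : ℤ), y k)).card : ℝ) ≤ K := by
      have := Finset.card_image_le (s := range K) (f := fun k => ((0 : ℤ), y k))
      rw [Finset.card_range] at this
      exact_mod_cast this
    have e2 : (N : ℝ) ^ d ≤ (N : ℝ) ^ (d + ε) :=
      Real.rpow_le_rpow_of_exponent_le hN1 (by linarith)
    have e3 : 2 * (N : ℝ) ^ (d + ε) ≤ max C₀ 2 * (N : ℝ) ^ (d + ε) :=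
      mul_le_mul_of_nonneg_right hC2 (by positivity)
    linarith
  · intro q hq
    rw [Finset.mem_image] at hq
    obtain ⟨k, -, rfl⟩ := hq
    simp
  · refine (measure_mono ?_).trans ((h K hK3).trans (ENNReal.ofReal_le_ofReal ?_))
    · rintro x ⟨hx1, hx2⟩
      refine ⟨hx1, fun k hk hx => ?_⟩
      have e2 := hx2 ((0 : ℤ), y k) (Finset.mem_image_of_mem _ (Finset.mem_range.2 hk)) 0
      have e3 : φ x - ((((0 : ℤ), y k) : ℤ × ℝ).1 * x + (((0 : ℤ), y k) : ℤ × ℝ).2 + (0 : ℤ)) =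
          0 := by
        rw [hx]
        simp
      rw [e3, abs_zero] at e2
      have e4 : (0 : ℝ) < 1 / (N : ℝ) := by positivity
      linarith
    · have e1 : (K : ℝ) ^ (-s) ≤ (N : ℝ) ^ (d + ε - 1) := by
        calc (K : ℝ) ^ (-s) ≤ ((N : ℝ) ^ d) ^ (-s) :=
              Real.rpow_le_rpow_of_nonpos (by positivity) hK1 (by linarith)
          _ = (N : ℝ) ^ (d - 1) := by
              rw [← Real.rpow_mul hN0.le]
              congr 1
              linarith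
          _ ≤ (N : ℝ) ^ (d + ε - 1) := Real.rpow_le_rpow_of_exponent_le hN1 (by linarith)
      calc C₀ * (K : ℝ) ^ (-s) ≤ max C₀ 2 * (K : ℝ) ^ (-s) :=
            mul_le_mul_of_nonneg_right (le_max_left _ _) (by positivity)
        _ ≤ max C₀ 2 * (N : ℝ) ^ (d + ε - 1) := mul_le_mul_of_nonneg_left e1 (by positivity)

end Pool.Agent.QES
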