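import Mathlib

set_option autoImplicit false

/-!
# QES: the fixed phase estimate in `L^4`
-/

namespace Pool.Agent.QES

open Finset MeasureTheory

/-- the divisor bound -/
theorem div_bound (ε : ℝ) (hε : 0 < ε) :
    ∃ C : ℝ, 0 < C ∧ ∀ m : ℕ, 1 ≤ m → (m.divisors.card : ℝ) ≤ C * (m : ℝ) ^ ε := by
  obtain ⟨P, hP⟩ : ∃ P : ℕ, (2 : ℝ) ^ (1 / ε) ≤ P := exists_nat_ge _
  have hl2 : 0 < Real.log 2 := Real.log_pos (by norm_num)
  set M : ℝ := 1 + 1 / (ε * Real.log 2) with hM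
  have hM1 : 1 ≤ M := by
    rw [hM]
    have : 0 < 1 / (ε * Real.log 2) := by positivity
    linarith
  have hM0 : 0 ≤ M := by linarith
  have hMe : 1 ≤ M * (ε * Real.log 2) := by
    rw [hM, add_mul, one_div_mul_cancel (by positivity)]
    have : 0 < ε * Real.log 2 := by positivity
    linarith
  refine ⟨M ^ (P + 1), by positivity, ?_⟩
  intro m hm
  have hm0 : m ≠ 0 := by omega
  rw [Nat.card_divisors hm0]
  push_cast
  have h2 : ∏ p ∈ m.primeFactors, ((m.factorization p : ℝ) + 1) ≤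
      ∏ p ∈ m.primeFactors, ((if p ≤ P then M else 1) *
        ((p : ℝ) ^ m.factorization p) ^ ε) := by
    refine prod_le_prod (fun _ _ => by positivity) ?_
    intro p hp
    have hp2 : (2 : ℝ) ≤ p := by
      exact_mod_cast (Nat.prime_of_mem_primeFactors hp).two_le
    have hp0 : (0 : ℝ) ≤ p := by linarith
    set a := m.factorization p with ha
    have e1 : ((p : ℝ) ^ a) ^ ε = ((p : ℝ) ^ ε) ^ a := by
      rw [← Real.rpow_natCast, ← Real.rpow_natCast, ← Real.rpow_mul hp0, ← Real.rpow_mul hp0,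
        mul_comm]
    by_cases h : p ≤ P
    · rw [if_pos h]
      have e2 : (2 : ℝ) ^ (ε * a) ≤ ((p : ℝ) ^ a) ^ ε := by
        rw [e1, ← Real.rpow_natCast, ← Real.rpow_mul hp0]
        exact Real.rpow_le_rpow (by norm_num) hp2 (by positivity)
      have e3 : 1 + ε * a * Real.log 2 ≤ (2 : ℝ) ^ (ε * a) := by
        rw [Real.rpow_def_of_pos (by norm_num)]
        have := Real.add_one_le_exp (Real.log 2 * (ε * a))
        nlinarith
      have e4 : (a : ℝ) + 1 ≤ M * (1 + ε * a * Real.log 2) := by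
        have ha0 : (0 : ℝ) ≤ a := Nat.cast_nonneg a
        have : (a : ℝ) ≤ M * (ε * Real.log 2) * a := le_mul_of_one_le_left ha0 hMe
        nlinarith
      exact e4.trans (mul_le_mul_of_nonneg_left (e3.trans e2) hM0)
    · rw [if_neg h, one_mul]
      have h3 : (2 : ℝ) ^ (1 / ε) ≤ p := by
        refine hP.trans ?_
        exact_mod_cast (not_le.1 h).le
      have h4 := Real.rpow_le_rpow (by positivity) h3 hε.le
      rw [← Real.rpow_mul (by norm_num), one_div_mul_cancel hε.ne', Real.rpow_one] at h4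
      rw [e1]
      have h5 : (2 : ℝ) ^ a ≤ ((p : ℝ) ^ ε) ^ a := pow_le_pow_left₀ (by norm_num) h4 a
      have h6 : (a : ℝ) + 1 ≤ (2 : ℝ) ^ a := by
        have := Nat.lt_two_pow_self (n := a)
        exact_mod_cast this
      exact h6.trans h5
  rw [prod_mul_distrib] at h2
  have h5 : ∏ p ∈ m.primeFactors, (if p ≤ P then M else 1) ≤ M ^ (P + 1) := by
    rw [← prod_filter, prod_const]
    refine pow_le_pow_right₀ hM1 ?_
    have h6 : (m.primeFactors.filter (fun p => p ≤ P)) ⊆ range (P + 1) := by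
      intro p hp
      rw [mem_filter] at hp
      rw [mem_range]
      omega
    have := card_le_card h6
    rwa [card_range] at this
  have h7 : ∏ p ∈ m.primeFactors, ((p : ℝ) ^ m.factorization p) ^ ε = (m : ℝ) ^ ε := by
    rw [Real.finsetProd_rpow _ _ (fun p _ => by positivity)]
    congr 1
    have h8 := Nat.prod_factorization_pow_eq_self hm0
    rw [Finsupp.prod, Nat.support_factorization] at h8
    have h9 : ((∏ p ∈ m.primeFactors, p ^ m.factorization p : ℕ) : ℝ) = (m : ℝ) := by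
      rw [h8]
    rw [← h9]
    push_cast
    rfl
  rw [h7] at h2
  exact h2.trans (mul_le_mul_of_nonneg_right h5 (by positivity))

/-- `∫_{-1}^{1} e(k x) dx` -/
theorem int_e (k : ℤ) : ∫ x in (-1 : ℝ)..1, Complex.exp (2 * Real.pi * Complex.I * (k * (x : ℂ))) =
    if k = 0 then 2 else 0 := by
  split_ifs with h
  · subst h
    simp
    norm_num
  · have hc : (2 * Real.pi * Complex.I * k : ℂ) ≠ 0 := by
      refine mul_ne_zero (mul_ne_zero (mul_ne_zero two_ne_zero ?_) Complex.I_ne_zero) ?_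
      · exact_mod_cast Real.pi_ne_zero
      · exact_mod_cast h
    have e1 : ∀ x : ℝ, Complex.exp (2 * Real.pi * Complex.I * (k * (x : ℂ))) =
        Complex.exp ((2 * Real.pi * Complex.I * k) * (x : ℂ)) := fun x => by
      congr 1
      ring
    simp only [e1]
    rw [integral_exp_mul_complex hc]
    have e2 : Complex.exp ((2 * Real.pi * Complex.I * k) * ((1 : ℝ) : ℂ)) = 1 := by
      rw [Complex.exp_eq_one_iff]
      exact ⟨k, by push_cast; ring⟩
    have e3 : Complex.exp ((2 * Real.pi * Complex.I * k) * ((-1 : ℝ) : ℂ)) = 1 := by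
      rw [Complex.exp_eq_one_iff]
      exact ⟨-k, by push_cast; ring⟩
    rw [e2, e3, sub_self, zero_div]

/-- Parseval for integer frequencies -/
theorem parseval (K : Finset ℤ) (d : ℤ → ℂ) :
    ∫ x in (-1 : ℝ)..1, ‖∑ k ∈ K, d k * Complex.exp (2 * Real.pi * Complex.I * (k * (x : ℂ)))‖ ^ 2 =
      2 * ∑ k ∈ K, ‖d k‖ ^ 2 := by
  have hc : ∀ (k l : ℤ), Continuous (fun x : ℝ => (d k * (starRingEnd ℂ) (d l)) *
      Complex.exp (2 * Real.pi * Complex.I * (((k - l : ℤ) : ℂ) * (x : ℂ)))) := fun k l => by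
    fun_prop
  have e1 : ∀ x : ℝ, (((‖∑ k ∈ K, d k * Complex.exp (2 * Real.pi * Complex.I * (k * (x : ℂ)))‖ ^ 2 : ℝ)) : ℂ) =
      ∑ k ∈ K, ∑ l ∈ K, (d k * (starRingEnd ℂ) (d l)) *
        Complex.exp (2 * Real.pi * Complex.I * (((k - l : ℤ) : ℂ) * (x : ℂ))) := by
    intro x
    rw [Complex.ofReal_pow, ← Complex.mul_conj', map_sum, Finset.sum_mul_sum]
    refine Finset.sum_congr rfl fun k _ => Finset.sum_congr rfl fun l _ => ?_
    rw [map_mul, ← Complex.exp_conj]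
    have e2 : (starRingEnd ℂ) (2 * Real.pi * Complex.I * (l * (x : ℂ))) =
        -(2 * Real.pi * Complex.I * (l * (x : ℂ))) := by
      rw [show (2 * Real.pi * Complex.I * (l * (x : ℂ)) : ℂ) =
        ((2 * Real.pi * (l * x) : ℝ) : ℂ) * Complex.I by push_cast; ring, map_mul,
        Complex.conj_ofReal, Complex.conj_I]
      ring
    rw [e2]
    have e3 : Complex.exp (2 * Real.pi * Complex.I * (((k - l : ℤ) : ℂ) * (x : ℂ))) =
        Complex.exp (2 * Real.pi * Complex.I * (k * (x : ℂ))) *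
          Complex.exp (-(2 * Real.pi * Complex.I * (l * (x : ℂ)))) := by
      rw [← Complex.exp_add]
      congr 1
      push_cast
      ring
    rw [e3]
    ring
  have e4 : (((∫ x in (-1 : ℝ)..1,
      ‖∑ k ∈ K, d k * Complex.exp (2 * Real.pi * Complex.I * (k * (x : ℂ)))‖ ^ 2 : ℝ)) : ℂ) =
      ((2 * ∑ k ∈ K, ‖d k‖ ^ 2 : ℝ) : ℂ) := by
    rw [← intervalIntegral.integral_ofReal]
    simp only [e1]
    rw [intervalIntegral.integral_finsetSum]
    · have e5 : ∀ k ∈ K, ∫ x in (-1 : ℝ)..1, ∑ l ∈ K, (d k * (starRingEnd ℂ) (d l)) *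
          Complex.exp (2 * Real.pi * Complex.I * (((k - l : ℤ) : ℂ) * (x : ℂ))) =
          2 * (((‖d k‖ ^ 2 : ℝ)) : ℂ) := by
        intro k hk
        rw [intervalIntegral.integral_finsetSum]
        · have e6 : ∀ l ∈ K, ∫ x in (-1 : ℝ)..1, (d k * (starRingEnd ℂ) (d l)) *
              Complex.exp (2 * Real.pi * Complex.I * (((k - l : ℤ) : ℂ) * (x : ℂ))) =
              if l = k then 2 * (((‖d k‖ ^ 2 : ℝ)) : ℂ) else 0 := by
            intro l _
            rw [intervalIntegral.integral_const_mul, int_e]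
            by_cases h : l = k
            · subst h
              rw [if_pos (sub_self _), if_pos rfl, Complex.mul_conj', Complex.ofReal_pow]
              ring
            · rw [if_neg (fun h1 => h (by omega)), if_neg h, mul_zero]
          rw [Finset.sum_congr rfl e6, Finset.sum_ite_eq' K k, if_pos hk]
        · intro l _
          exact (hc k l).intervalIntegrable _ _
      rw [Finset.sum_congr rfl e5, ← Finset.mul_sum]
      push_cast
      rfl
    · intro k _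
      exact (continuous_finsetSum _ fun l _ => hc k l).intervalIntegrable _ _
  exact_mod_cast e4

/-- the pairs with a given difference of squares -/
noncomputable def prs (N : ℕ) (h : ℤ) : Finset (ℤ × ℤ) :=
  (Icc (-(N : ℤ)) N ×ˢ Icc (-(N : ℤ)) N).filter (fun p => p.1 ^ 2 - p.2 ^ 2 = h)

theorem card_prs (N : ℕ) {h : ℤ} (hh : h ≠ 0) : (prs N h).card ≤ 2 * h.natAbs.divisors.card := by
  classical
  set D : Finset (ℕ × Bool) := h.natAbs.divisors ×ˢ univ with hD
  have h1 : (prs N h).card ≤ D.card := by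
    refine Finset.card_le_card_of_injOn (fun p => ((p.1 - p.2).natAbs, decide (p.1 - p.2 < 0))) ?_ ?_
    · intro p hp
      have hp2 := (Finset.mem_filter.1 hp).2
      rw [hD]
      simp only [Finset.coe_product, Set.mem_prod, Finset.mem_coe, Finset.mem_univ, and_true,
        Nat.mem_divisors]
      refine ⟨?_, by omega⟩
      rw [Int.natAbs_dvd_natAbs]
      exact ⟨p.1 + p.2, by rw [← hp2]; ring⟩
    · intro p hp q hq hpq
      have hp2 := (Finset.mem_filter.1 hp).2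
      have hq2 := (Finset.mem_filter.1 hq).2
      simp only [Prod.mk.injEq, decide_eq_decide] at hpq
      have h2 : p.1 - p.2 = q.1 - q.2 := by omega
      have h3 : (p.1 - p.2) * (p.1 + p.2) = (p.1 - p.2) * (q.1 + q.2) := by
        have e1 : (p.1 - p.2) * (p.1 + p.2) = h := by rw [← hp2]; ring
        have e2 : (q.1 - q.2) * (q.1 + q.2) = h := by rw [← hq2]; ring
        rw [e1, h2, e2]
      have h4 : p.1 - p.2 ≠ 0 := by
        intro h0
        apply hh
        rw [← hp2]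
        have : p.1 ^ 2 - p.2 ^ 2 = (p.1 - p.2) * (p.1 + p.2) := by ring
        rw [this, h0, zero_mul]
      have h5 := mul_left_cancel₀ h4 h3
      exact Prod.ext (by omega) (by omega)
  rw [hD, Finset.card_product, Finset.card_univ, Fintype.card_bool] at h1
  omega

/-- the diagonal -/
theorem diag (N : ℕ) (f : ℤ → ℝ) (hf : ∀ n, 0 ≤ f n) :
    ∑ p ∈ prs N 0, f p.1 * f p.2 ≤ 2 * ∑ n ∈ Icc (-(N : ℤ)) N, f n ^ 2 := by
  classical
  set I := Icc (-(N : ℤ)) N with hI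
  have h1 : prs N 0 ⊆ (I.image fun n => (n, n)) ∪ (I.image fun n => (n, -n)) := by
    intro p hp
    obtain ⟨hp1, hp2⟩ := Finset.mem_filter.1 hp
    rw [Finset.mem_product] at hp1
    have h2 : p.1 ^ 2 = p.2 ^ 2 := by linarith
    rcases sq_eq_sq_iff_eq_or_eq_neg.1 h2 with h3 | h3
    · exact Finset.mem_union_left _ (Finset.mem_image.2 ⟨p.1, hp1.1, Prod.ext rfl h3⟩)
    · exact Finset.mem_union_right _ (Finset.mem_image.2 ⟨p.1, hp1.1, Prod.ext rfl (by simp [h3])⟩)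
  have hnn : ∀ p : ℤ × ℤ, 0 ≤ f p.1 * f p.2 := fun p => mul_nonneg (hf _) (hf _)
  have h2 : ∑ p ∈ prs N 0, f p.1 * f p.2 ≤ ∑ n ∈ I, f n * f n + ∑ n ∈ I, f n * f (-n) := by
    refine (Finset.sum_le_sum_of_subset_of_nonneg h1 fun p _ _ => hnn p).trans ?_
    have e1 := Finset.sum_union_inter (s₁ := I.image fun n => (n, n)) (s₂ := I.image fun n => (n, -n))
      (f := fun p : ℤ × ℤ => f p.1 * f p.2)
    have e2 : 0 ≤ ∑ p ∈ (I.image fun n => (n, n)) ∩ (I.image fun n => (n, -n)), f p.1 * f p.2 :=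
      Finset.sum_nonneg fun p _ => hnn p
    have e3 : ∑ p ∈ I.image (fun n => (n, n)), f p.1 * f p.2 = ∑ n ∈ I, f n * f n :=
      Finset.sum_image (fun a _ b _ h => (Prod.mk.inj h).1)
    have e4 : ∑ p ∈ I.image (fun n => (n, -n)), f p.1 * f p.2 = ∑ n ∈ I, f n * f (-n) :=
      Finset.sum_image (fun a _ b _ h => (Prod.mk.inj h).1)
    linarith
  have h3 : ∑ n ∈ I, f n * f (-n) ≤ ∑ n ∈ I, f n ^ 2 := by
    have e1 : ∑ n ∈ I, f (-n) ^ 2 = ∑ n ∈ I, f n ^ 2 := by
      refine Finset.sum_nbij' (fun n => -n) (fun n => -n) ?_ ?_ ?_ ?_ ?_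
      · intro a ha
        rw [hI, Finset.mem_Icc] at ha ⊢
        omega
      · intro a ha
        rw [hI, Finset.mem_Icc] at ha ⊢
        omega
      · intro a _
        ring
      · intro a _
        ring
      · intro a _
        rfl
    have e2 : ∑ n ∈ I, f n * f (-n) ≤ ∑ n ∈ I, (f n ^ 2 / 2 + f (-n) ^ 2 / 2) :=
      Finset.sum_le_sum fun n _ => by nlinarith [sq_nonneg (f n - f (-n))]
    rw [Finset.sum_add_distrib, ← Finset.sum_div, ← Finset.sum_div, e1] at e2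
    linarith
  have h4 : ∑ n ∈ I, f n * f n = ∑ n ∈ I, f n ^ 2 := Finset.sum_congr rfl fun n _ => by ring
  linarith

/-- **The fixed phase estimate.** -/
theorem fix4 (ε : ℝ) (hε : 0 < ε) : ∃ C : ℝ, 0 < C ∧ ∀ N : ℕ, 1 ≤ N → ∀ b : ℤ → ℂ,
    ∫ x in (-1 : ℝ)..1, ‖∑ n ∈ Icc (-(N : ℤ)) N,
      b n * Complex.exp (2 * Real.pi * Complex.I * ((n : ℂ) ^ 2 * (x : ℂ)))‖ ^ 4 ≤
    C * (N : ℝ) ^ ε * (∑ n ∈ Icc (-(N : ℤ)) N, ‖b n‖ ^ 2) ^ 2 := by
  classical
  obtain ⟨C, hC, hd⟩ := div_bound (ε / 2) (by positivity)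
  refine ⟨2 * (2 * C + 4), by positivity, fun N hN b => ?_⟩
  set I := Icc (-(N : ℤ)) N with hI
  set P := I ×ˢ I with hP
  set κ : ℤ × ℤ → ℤ := fun p => p.1 ^ 2 - p.2 ^ 2 with hκ
  set K := P.image κ with hK
  set d : ℤ → ℂ := fun k => ∑ p ∈ prs N k, b p.1 * (starRingEnd ℂ) (b p.2) with hdd
  set B := ∑ n ∈ I, ‖b n‖ ^ 2 with hB
  have hB0 : 0 ≤ B := Finset.sum_nonneg fun n _ => by positivity
  have hpr : ∀ k, prs N k = P.filter (fun p => κ p = k) := fun k => rfl
  have hN1 : (1 : ℝ) ≤ N := by exact_mod_cast hN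
  have hNe : (1 : ℝ) ≤ (N : ℝ) ^ ε := Real.one_le_rpow hN1 hε.le
  have e1 : ∀ x : ℝ, ‖∑ n ∈ I, b n * Complex.exp (2 * Real.pi * Complex.I * ((n : ℂ) ^ 2 * (x : ℂ)))‖ ^ 4 =
      ‖∑ k ∈ K, d k * Complex.exp (2 * Real.pi * Complex.I * (k * (x : ℂ)))‖ ^ 2 := by
    intro x
    set F := ∑ n ∈ I, b n * Complex.exp (2 * Real.pi * Complex.I * ((n : ℂ) ^ 2 * (x : ℂ))) with hF
    have e2 : F * (starRingEnd ℂ) F =
        ∑ k ∈ K, d k * Complex.exp (2 * Real.pi * Complex.I * (k * (x : ℂ))) := by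
      have e3 : F * (starRingEnd ℂ) F = ∑ p ∈ P, (b p.1 * (starRingEnd ℂ) (b p.2)) *
          Complex.exp (2 * Real.pi * Complex.I * ((κ p : ℂ) * (x : ℂ))) := by
        rw [hF, map_sum, Finset.sum_mul_sum, hP, Finset.sum_product]
        refine Finset.sum_congr rfl fun m _ => Finset.sum_congr rfl fun n _ => ?_
        rw [map_mul, ← Complex.exp_conj]
        have e2 : (starRingEnd ℂ) (2 * Real.pi * Complex.I * ((n : ℂ) ^ 2 * (x : ℂ))) =
            -(2 * Real.pi * Complex.I * ((n : ℂ) ^ 2 * (x : ℂ))) := by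
          rw [show (2 * Real.pi * Complex.I * ((n : ℂ) ^ 2 * (x : ℂ)) : ℂ) =
            ((2 * Real.pi * ((n : ℝ) ^ 2 * x) : ℝ) : ℂ) * Complex.I by push_cast; ring, map_mul,
            Complex.conj_ofReal, Complex.conj_I]
          ring
        rw [e2]
        have e3 : Complex.exp (2 * Real.pi * Complex.I * ((κ (m, n) : ℂ) * (x : ℂ))) =
            Complex.exp (2 * Real.pi * Complex.I * ((m : ℂ) ^ 2 * (x : ℂ))) *
              Complex.exp (-(2 * Real.pi * Complex.I * ((n : ℂ) ^ 2 * (x : ℂ)))) := by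
          rw [← Complex.exp_add]
          congr 1
          simp only [hκ]
          push_cast
          ring
        rw [e3]
        ring
      rw [e3, ← Finset.sum_fiberwise_of_maps_to (t := K) (g := κ)
        (fun p hp => Finset.mem_image_of_mem κ hp)]
      refine Finset.sum_congr rfl fun k _ => ?_
      simp only [hdd]
      rw [hpr k, Finset.sum_mul]
      refine Finset.sum_congr rfl fun p hp => ?_
      rw [(Finset.mem_filter.1 hp).2]
    have e4 : ‖F‖ ^ 4 = ‖F * (starRingEnd ℂ) F‖ ^ 2 := by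
      rw [norm_mul, RCLike.norm_conj]
      ring
    rw [e4, e2]
  simp only [e1]
  rw [parseval]
  -- the terms
  have hterm : ∀ k ∈ K, k ≠ 0 → ‖d k‖ ^ 2 ≤ 2 * C * (N : ℝ) ^ ε * ∑ p ∈ prs N k, ‖b p.1‖ ^ 2 * ‖b p.2‖ ^ 2 := by
    intro k hk hk0
    have h1 : ‖d k‖ ≤ ∑ p ∈ prs N k, ‖b p.1‖ * ‖b p.2‖ := by
      refine (norm_sum_le _ _).trans (Finset.sum_le_sum fun p _ => ?_)
      rw [norm_mul, RCLike.norm_conj]
    have h2 : ‖d k‖ ^ 2 ≤ ((prs N k).card : ℝ) * ∑ p ∈ prs N k, (‖b p.1‖ * ‖b p.2‖) ^ 2 :=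
      (pow_le_pow_left₀ (norm_nonneg _) h1 2).trans sq_sum_le_card_mul_sum_sq
    have h3 : ((prs N k).card : ℝ) ≤ 2 * C * (N : ℝ) ^ ε := by
      have h4 : ((prs N k).card : ℝ) ≤ 2 * (k.natAbs.divisors.card : ℝ) := by
        exact_mod_cast card_prs N hk0
      have h5 := hd k.natAbs (Int.natAbs_pos.2 hk0)
      have h6 : k.natAbs ≤ N ^ 2 := by
        obtain ⟨p, hp, rfl⟩ := Finset.mem_image.1 hk
        rw [hP, Finset.mem_product, hI, Finset.mem_Icc, Finset.mem_Icc] at hp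
        have h7 : p.1 ^ 2 ≤ (N : ℤ) ^ 2 := by nlinarith
        have h8 : p.2 ^ 2 ≤ (N : ℤ) ^ 2 := by nlinarith
        have h9 : |κ p| ≤ (N : ℤ) ^ 2 := by
          rw [abs_le]
          simp only [hκ]
          constructor <;> nlinarith [sq_nonneg p.1, sq_nonneg p.2]
        zify
        exact h9
      have h7 : ((k.natAbs : ℕ) : ℝ) ^ (ε / 2) ≤ (N : ℝ) ^ ε := by
        have h8 : ((k.natAbs : ℕ) : ℝ) ≤ (N : ℝ) ^ (2 : ℝ) := by
          rw [Real.rpow_two]
          exact_mod_cast h6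
        refine (Real.rpow_le_rpow (Nat.cast_nonneg _) h8 (by positivity)).trans ?_
        rw [← Real.rpow_mul (by positivity)]
        have : 2 * (ε / 2) = ε := by ring
        rw [this]
      nlinarith
    have h4 : ∑ p ∈ prs N k, (‖b p.1‖ * ‖b p.2‖) ^ 2 = ∑ p ∈ prs N k, ‖b p.1‖ ^ 2 * ‖b p.2‖ ^ 2 :=
      Finset.sum_congr rfl fun p _ => by ring
    rw [h4] at h2
    exact h2.trans (mul_le_mul_of_nonneg_right h3 (Finset.sum_nonneg fun p _ => by positivity))
  have hzero : ‖d 0‖ ^ 2 ≤ 4 * B ^ 2 := by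
    have h1 : ‖d 0‖ ≤ ∑ p ∈ prs N 0, ‖b p.1‖ * ‖b p.2‖ := by
      refine (norm_sum_le _ _).trans (Finset.sum_le_sum fun p _ => ?_)
      rw [norm_mul, RCLike.norm_conj]
    have h2 := diag N (fun n => ‖b n‖) (fun n => norm_nonneg _)
    have h3 : ‖d 0‖ ≤ 2 * B := h1.trans h2
    calc ‖d 0‖ ^ 2 ≤ (2 * B) ^ 2 := pow_le_pow_left₀ (norm_nonneg _) h3 2
      _ = 4 * B ^ 2 := by ring
  have hall : ∑ k ∈ K, ∑ p ∈ prs N k, ‖b p.1‖ ^ 2 * ‖b p.2‖ ^ 2 = B ^ 2 := by
    have h1 : ∑ k ∈ K, ∑ p ∈ prs N k, ‖b p.1‖ ^ 2 * ‖b p.2‖ ^ 2 =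
        ∑ p ∈ P, ‖b p.1‖ ^ 2 * ‖b p.2‖ ^ 2 :=
      Finset.sum_fiberwise_of_maps_to (t := K) (g := κ) (fun p hp => Finset.mem_image_of_mem κ hp) _
    rw [h1, hP, Finset.sum_product, sq, hB, Finset.sum_mul_sum]
  have hsum : ∑ k ∈ K, ‖d k‖ ^ 2 ≤ ∑ k ∈ K, (2 * C * (N : ℝ) ^ ε *
      ∑ p ∈ prs N k, ‖b p.1‖ ^ 2 * ‖b p.2‖ ^ 2 + if k = 0 then 4 * B ^ 2 else 0) := by
    refine Finset.sum_le_sum fun k hk => ?_
    have hnn : 0 ≤ 2 * C * (N : ℝ) ^ ε * ∑ p ∈ prs N k, ‖b p.1‖ ^ 2 * ‖b p.2‖ ^ 2 :=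
      mul_nonneg (by positivity) (Finset.sum_nonneg fun p _ => by positivity)
    by_cases h : k = 0
    · rw [if_pos h]
      subst h
      linarith
    · rw [if_neg h, add_zero]
      exact hterm k hk h
  rw [Finset.sum_add_distrib, ← Finset.mul_sum, hall, Finset.sum_ite_eq'] at hsum
  have hB2 : 0 ≤ B ^ 2 := by positivity
  have h5 : (if (0 : ℤ) ∈ K then 4 * B ^ 2 else 0) ≤ 4 * (N : ℝ) ^ ε * B ^ 2 := by
    split_ifs
    · nlinarith
    · positivity
  nlinarith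

end Pool.Agent.QES
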